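import Pool.Agent.H252.EL.Sys

/-!
# Uncountably many simple AH algebras with the same Elliott invariant and infinite radius of
comparison: the interface

For every `ω : ℕ → Bool` the system `DD q ω` has the building blocks `D.A i = C(D.Z i, M_{D.n i})`,
`D.Z i` = disjoint union of the cubes of dimension `D.d i true` and `D.d i false`, and the diagonal
connecting maps `D.φ i` given by the patches `D.l i s`, `s < D.S i`: `m i` coordinate projections,
`S i - m i - c i` evaluations at the point `q i b` of the same component `b`, `c i` evaluations at the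
point `q i (!b)` of the other component. The spaces do not depend on `ω`. `D.d i true / D.n i → ∞`
and `D.d i false / D.n i → 2 r(ω)`. With `e = j 0 (D.one 0 false)` the predicate `Wit L e s` holds
for `s < r(ω)` and fails for `s > r(ω)`.

`S_X` is a statement, its proof `s_X : S_X` is delivered in `Pool/Agent/H<n>/...`.
-/

set_option autoImplicit false

noncomputable section

namespace Pool.Agent.H252.EL

open Filter Topology
open scoped ENNReal NNReal Matrix.Norms.L2Operator ComplexOrder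
open Pool.Agent.TH249 (Prj K0 Eqv IsPrj)
open Pool.Agent.H188R3 (IsLim)

/-! ## Part 1: the limit algebra -/

/-- **EX**: the blocks are nontrivial and the connecting maps are injective; the limit is separable
and an AH algebra.

PROOF. `D.n i > 0` by induction (`S i ≥ 1`), `D.Z i` is nonempty, so `0 ≠ 1` in `D.A i`.
Injectivity: for `z : D.Z i` there is `z' : D.Z (i+1)` with `D.l i 0 z' = z` (the first patch is a
coordinate projection because `m i ≥ 1`; put the coordinates of `z` in the block `0` and `0`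
elsewhere), so `D.φ i f = 0` gives `f z = 0` by `dgv_apply`. The rest: `lim_separable`
(`outputs/live/Pool/Agent/H254/BR/Lim.lean`, module `Pool.Agent.H254.BR.Lim`; `D.A i` is separable:
`ContinuousMap` into a separable metric space from a compact metrizable space), and `IsAHLimit` by
`⟨D.Z, _, _, _, D.n, D.φ, j, hL⟩`; `D.Z i` is a finite disjoint union of compact metrizable spaces:
compact, Hausdorff, second countable, hence metrizable
(`TopologicalSpace.metrizableSpace_of_t3_secondCountable`). -/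
def S_EX : Prop := ∀ D : Sys, D.Good → (∀ i, Nontrivial (D.A i)) ∧
  (∀ i, Function.Injective (D.φ i)) ∧ ∀ (L : Type) [CStarAlgebra L] (j : ∀ i, D.A i →⋆ₐ[ℂ] L),
    IsLim D.φ j → TopologicalSpace.SeparableSpace L ∧ IsAHLimit L

/-- **PATCH**: the composed connecting maps are diagonal, too. `P` = set of composed patches, `G` =
the composed patches which are coordinate projections.

PROOF. Induction on `r`. For `r = 0`: `P = Unit`, `G = ⊤`, `l = id`. Step: `P' = P × Fin (D.S (i+r))`,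
`l' (p, s) = (l p).comp (D.l (i+r) s)`, `G' (p, s) ↔ G p ∧ s < D.m (i+r)`,
`E' x = ((E y).1, ((E y).2, t))` where `(y, t) = finProdFinEquiv.symm x`. (1) from `dgv_apply`. For
(5) a patch `(p, s)` which is not in `G'`: if `s ≥ m` then `D.l (i+r) s` is constant on every
component (definition of `lam`), if `s < m`, then `D.l (i+r) s` maps a component to the same
component, and `¬ G p`. (4): given `y : {p // G' p} → Cb (D.d i b)`, for every `s < m` let
`F_s = F (fun p => y (p, s)) : Cb (D.d (i+r) b)` and let `F' y` be the point of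
`Cb (D.d (i+r+1) b)`, `D.d (i+r+1) b = m * D.d (i+r) b + e`, whose block number `s` is `F_s` and
whose additional coordinates are `0` (`Fin.addCases`, `finProdFinEquiv`). -/
def S_PATCH : Prop := ∀ D : Sys, D.Good → ∀ i r : ℕ,
  ∃ (P : Type) (_ : Fintype P) (_ : DecidableEq P) (l : P → C(D.Z (i + r), D.Z i)) (G : P → Prop)
    (_ : DecidablePred G) (E : Fin (D.n (i + r)) ≃ Fin (D.n i) × P),
    (∀ (a : D.A i) (z : D.Z (i + r)) (x y : Fin (D.n (i + r))),
      D.tr i r a z x y = if (E x).2 = (E y).2 then a (l (E x).2 z) (E x).1 (E y).1 else 0) ∧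
    Fintype.card P = ∏ k ∈ Finset.range r, D.S (i + k) ∧
    Fintype.card {p // G p} = ∏ k ∈ Finset.range r, D.m (i + k) ∧
    (∀ b : Bool, ∃ F : ({p // G p} → Cb (D.d i b)) → Cb (D.d (i + r) b), Continuous F ∧
      ∀ y p, l p.1 ⟨b, F y⟩ = ⟨b, y p⟩) ∧
    (∀ p, ¬ G p → ∀ z z' : D.Z (i + r), z.1 = z'.1 → l p z = l p z')

/-- **SIMPLE**: the limit algebra is simple (as a ring; it is unital).

PROOF. (See also `Pool.Agent.H254.BR.Main2`, `simple_L`, in `outputs/live`, for a similar argument.)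
Let `y ∈ L`, `y ≠ 0`; it suffices to find finitely many `r k`, `s k ∈ L` with `∑ r k * y * s k = 1`,
or that the closed... (in a unital Banach algebra a two-sided ideal containing an element near `1` is
everything). Let `T = star y * y`, `‖T‖ = 1` after scaling. Choose a stage `i` and `a ∈ D.A i`, `a ≥ 0`
(`a = star a₀ * a₀`), `‖T - j i a‖ < 1/8`; so `‖a‖ > 7/8` and there is `z₀ = ⟨b, y₀⟩` with
`‖a z₀‖ > 7/8`. Let `U ∋ y₀` be the open set of the `y'` with `‖a ⟨b,y'⟩‖ > 7/8`. By `Dns` there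
are `k ≥ i` and a chain of coordinate projections which maps `q k b` into `U`: so the block diagonal
matrix `D.tr i (k-i) a ⟨b, q k b⟩` has a block of norm `> 7/8`. At stage `k+1` the point `q k b` is
used in a patch at every point of both components (`c k ≥ 1`, `S k - m k - c k ≥ 1`), so
`a' = D.tr i (k+1-i) a` satisfies `‖a' z‖ > 7/8` at EVERY `z : D.Z (k+1)`; moreover there is a fixed
`N = D.n (k+1)` and a fixed block (constant matrix `B ≥ 0` of norm `> 7/8`) of `a' z` on each component.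
Hence with a constant rank one partial isometry etc. `∑_{s,t} (E_{s,ξ}) a' (E_{ξ,s})` with
`E_{s,ξ} = e_s ξ*`, `ξ` a unit vector (constant on each component, supported in the constant block)
with `⟨a' ξ, ξ⟩ > 7/8`: `∑_s (e_s ξ*) a' (ξ e_s*) = ⟨a'ξ,ξ⟩ 1 ≥ 7/8`, a scalar function `g · 1` with
`g ≥ 7/8` (`D.A (k+1)` contains the functions which are constant on components). So
`∑_s r_s (j a') s_s = 1` with `r_s = g^{-1/2} e_s ξ*`, `s_s = star r_s`, and as
`x ↦ ∑_s r_s x s_s` is completely positive with value `∑ r_s s_s = g^{-1} ∑_s e_s e_s* ≤ 8/7` at `1`,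
`‖∑_s r_s (T - j a') s_s‖ ≤ (8/7)(1/8) < 1`: `∑_s r_s T s_s` is invertible and lies in the ideal
generated by `y`. (Only the norm bound `‖∑_s r_s x star (r_s)‖ ≤ ‖∑ r_s star (r_s)‖ ‖x‖` for
self-adjoint `x` is needed: `-‖x‖ ≤ x ≤ ‖x‖`.) -/
def S_SIMPLE : Prop := ∀ D : Sys, D.Good → D.Dns → ∀ (L : Type) [CStarAlgebra L]
  (j : ∀ i, D.A i →⋆ₐ[ℂ] L), IsLim D.φ j → IsSimpleRing L

/-- **K1**: `K_1 = 0`.

PROOF. Let `u ∈ M_n(L)` be unitary. (`MA (Fin n) L` in `Pool.Graph.R_seed8.TH249.Lim` is the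
C*-algebra of matrices over `L`, `toMA`, `approx_MA`.) There are a stage `i` and `x ∈ M_n(D.A i)`
with `‖u - j x‖ < 1/4`; then `x` is invertible and `v = x (x* x)^{-1/2}` is a unitary in `M_n(D.A i)`
with `‖u - j v‖ < 1`. Unitaries of a C*-algebra at distance `< 2` are connected by a path of unitaries
(Mathlib has this, see `Mathlib/Analysis/CStarAlgebra/Unitary/Connected.lean`; or `u* w = exp(i h)`,
`h = arg`). Next `v` is a continuous family of unitary matrices `v(z)`, `z ∈ D.Z i`; the path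
`v_t(b, y) = v(b, (1-t) y + t y₀)` (contract the cubes, `y₀ = 0`) connects `v` to a family which is
constant on the two components (a path in `C(D.Z i, M)`: joint continuity on `[0,1] × D.Z i` gives
continuity in the sup norm, `ContinuousMap.curry`), and a unitary matrix `w` over `ℂ` is connected to
`1` by unitary matrices (spectral theorem, `w = exp(i h)`; or: in the finite dimensional C*-algebra
`C({true,false}, M)` the spectrum of `w` is finite, so not the whole circle and the logarithm exists).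
Concatenate (`JoinedIn`, `Path.trans`) and extend the path to `ℝ` (`Path.extend`). -/
def S_K1 : Prop := ∀ D : Sys, D.Good → ∀ (L : Type) [CStarAlgebra L]
  (j : ∀ i, D.A i →⋆ₐ[ℂ] L), IsLim D.φ j → K1Zero L

/-! ## Part 2: traces -/

/-- **TRB**: a tracial functional on `C(Z, M_n)` factors through the pointwise normalised trace.

PROOF. `a = ∑_{k,l} (a_kl) e_kl`, `(f e_kl) = (f e_kk)(e_kl) - ...`: `t(f e_kl) = t(f e_kk e_kl) =
t(e_kl f e_kk) = 0` for `k ≠ l`, `t(f e_kk) = t(f e_k1 e_1k) = t(e_1k f e_k1) = t(f e_11)`. So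
`t(a) = ∑_k t(a_kk e_kk) = t((∑ a_kk) e_11)`, and `t(sc f) = n t(f e_11)`. For `n = 0` everything is
`0` (`BB Z 0` is trivial). -/
def S_TRB : Prop := ∀ (Z : Type) [TopologicalSpace Z] [CompactSpace Z] (n : ℕ)
  (t : BB Z n →ₗ[ℂ] ℂ), (∀ x y, t (x * y) = t (y * x)) → ∀ a, t a = t (sc n (ctr a))

/-- **MASS**: the traces of the limit algebra, on the finite stages, and the masses of the components.

PROOF. (1) is `S_TRB` for `t = τ ∘ j i`. (2) `ctr (D.φ i (sc f)) = D.θ i f` (trace of a block diagonal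
matrix), so `τ(j_i (sc f)) = τ(j_{i+1}(φ_i (sc f))) = τ(j_{i+1}(sc (θ_i f)))` by (1). (3) Let
`w_i b = τ(j_i (one i b))`; `one i true + one i false = 1`, so `w_i true + w_i false = 1`; the
`one i b` are projections, so `w_i b` is real and in `[0,1]`. By (2) with `f = 1_b` (`one i b = sc f`):
`θ_i(1_b) = (1 - c/S) 1_b + (c/S) 1_{!b}` (count the patches: `S - c` of them preserve the component),
hence `w_i b - 1/2 = (1 - 2c/S)(w_{i+1} b - 1/2)`, and `1 - 2 c_i/S_i = 1 - 1/(i+2)² =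
((i+1)/(i+2)) / ((i+2)/(i+3))` (`Fine.S_eq`). So `(w_i b - 1/2) (i+2)/(i+1)` does not depend on `i`;
for `i = 0` it is `2 w_0 b - 1`. (4): `|w_i b - 1/2| ≤ 1/2` gives `|2 w_0 b - 1| ≤ (i+2)/(2(i+1))`
for all `i`, hence `≤ 1/2`. -/
def S_MASS : Prop := ∀ D : Sys, D.Fine → ∀ (L : Type) [CStarAlgebra L]
  (j : ∀ i, D.A i →⋆ₐ[ℂ] L), IsLim D.φ j → ∀ τ ∈ TracialStates L,
  (∀ i a, τ (j i a) = τ (j i (sc _ (ctr a)))) ∧
  (∀ i (f : C(D.Z i, ℂ)), τ (j (i + 1) (sc _ (D.θ i f))) = τ (j i (sc _ f))) ∧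
  (∀ i b, τ (j i (D.one i b)) =
    ((1 / 2 + (2 * (τ (j 0 (D.one 0 b))).re - 1) * ((i + 1 : ℝ) / (i + 2)) : ℝ) : ℂ)) ∧
  (∀ b, 1 / 4 ≤ (τ (j 0 (D.one 0 b))).re ∧ (τ (j 0 (D.one 0 b))).re ≤ 3 / 4) ∧
  (τ (j 0 (D.one 0 true))).re + (τ (j 0 (D.one 0 false))).re = 1

/-- **EXT**: traces of the limit algebra as limits of point evaluations.

PROOF. The existence of `τ` with (1) is proved in `Pool.Agent.H254.BR.Lim`, `exists_trace`
(`outputs/live/Pool/Agent/H254/BR/Lim.lean`) for `s = id`; the statement there forgets (1), but it is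
the property `key` in the proof. For general `s` apply the same proof (approximate `y` by
`j (s k) (a k)`, `‖a k‖ ≤ 2‖y‖ + 1`, and take the limit of `ntr (a k (z k))` along the
ultrafilter; `|ntr b| ≤ ‖b‖`). (2): take `y = j 0 (D.one 0 b)`, `a k = D.tr 0 (s k) (D.one 0 b)` (up to
`0 + s k = s k`; better: use `S_MASS`: for every stage `i` and every `b`, choose `y = j i (one i b)`):
simplest: let `w_i b = τ(j i (one i b))`. For `k` with `s k = i'` large,
`‖j i' (one i' b) - y_{i'}‖`... Alternatively compute the limit: `u_k = ntr ((image of one 0 b at stage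
s k) (z k))` is the fraction of the composed patches at `z k` which end in the component `b`; by
induction on the stage this fraction is `1/2 + (1/2) ∏_{l < s k} (1 - 2 c_l/S_l)` if `z k` is in the
component `b`, `= 1/2 + (1/2)((s k + 2)/(2 (s k + 1)))`, because `1 - 2c_l/S_l = 1 - 1/(l+2)²`; the
limit is `3/4`. (Formally: for `a : D.A 0` the function `ctr (D.tr 0 r a)` is the `r`-fold image of
`ctr a` under the `θ`s, and `θ_i (α + β (2·1_b - 1)) = α + β (1 - 2c/S) (2·1_b - 1)`.) -/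
def S_EXT : Prop := ∀ D : Sys, D.Fine → ∀ (L : Type) [CStarAlgebra L]
  (j : ∀ i, D.A i →⋆ₐ[ℂ] L), IsLim D.φ j → ∀ (s : ℕ → ℕ) (z : ∀ k, D.Z (s k)), StrictMono s →
  ∃ τ ∈ TracialStates L,
    (∀ (y : L) (a : ∀ k, D.A (s k)), Tendsto (fun k => ‖y - j (s k) (a k)‖) atTop (𝓝 0) →
      Tendsto (fun k => ntr (a k (z k))) (hyperfilter ℕ : Filter ℕ) (𝓝 (τ y))) ∧
    ∀ b, (∀ k, (z k).1 = b) → (τ (j 0 (D.one 0 b))).re = 3 / 4

/-- **UPT**: a uniform lower bound for the traces at the points of late stages.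

PROOF. By contradiction: otherwise there are `i_0 < i_1 < ...`, `a k ∈ D.A (i_k)` with
`‖j (i_k) (a k) - y‖ ≤ 1/(k+1)` and `z_k ∈ D.Z (i_k)` in the component `b` with
`(ntr (a k (z k))).re < s + 1/(k+1)`. Let `τ` be the trace of `S_EXT`. By (1)
`τ y = lim ntr (a k (z k))`, so `(τ y).re ≤ s`, while `(τ (j 0 (one 0 b))).re = 3/4` by (2), a
contradiction to the hypothesis `s < (τ y).re`. -/
def S_UPT : Prop := S_EXT → ∀ D : Sys, D.Fine → ∀ (L : Type) [CStarAlgebra L]
  (j : ∀ i, D.A i →⋆ₐ[ℂ] L), IsLim D.φ j → ∀ (b : Bool) (y : L) (s : ℝ),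
  (∀ τ ∈ TracialStates L, (τ (j 0 (D.one 0 b))).re = 3 / 4 → s < (τ y).re) →
  ∃ (η : ℝ) (N : ℕ), 0 < η ∧ ∀ i, N ≤ i → ∀ a : D.A i, ‖j i a - y‖ ≤ η →
    ∀ z : D.Z i, z.1 = b → s + η ≤ (ntr (a z)).re

/-- **TISO**: the trace spaces of two systems with the same spaces, points and coordinate projections
are affinely homeomorphic, by a map which preserves the masses of the components.

PROOF. Let `D = ⟨m,e,q,S,c⟩`, `D' = ⟨m,e,q,S',c'⟩`. `E i = C(Z i, ℂ)` is the same for both systems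
(the types are definitionally equal), with two contractions `θ i`, `θ' i : E i → E (i+1)` (averages
over patches). Both are `(m/S) Av + (1 - m/S) (contraction)`, `Av` = average over the coordinate
projections, so `‖θ i f - θ' i f‖ ≤ η_i ‖f‖`, `η_i = |m/S - m/S'| + (1-m/S) + (1-m/S') ≤
2(1-m/S) + 2(1-m/S')`, which is summable. Write `ω k i f` for the image of `f ∈ E i` in
`E (i+k)` under the `θ`s, `ω' k i f` under the `θ'`s.
A tracial state `τ` of `L` gives `L_i(f) = τ(j_i(sc f))`, `|L_i f| ≤ ‖f‖`,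
`L_{i+1}(θ_i f) = L_i f`, and is determined by the `L_i` (`S_MASS` (1), density). Conversely every
compatible sequence of states (linear, `L_i 1 = 1`, `L_i (f̄ f) ≥ 0`; hence `|L_i f| ≤ ‖f‖`) comes from
a tracial state (define `τ(j_i a) = L_i(ctr a)`, well defined by injectivity of `j i` and
compatibility, bounded, extend to `L` by density; or use the construction in `exists_trace` of
`Pool.Agent.H254.BR.Lim` with `ω n a = L_n(ctr a)`; positivity passes to limits).
For `τ' ∈ T(L')` put `L_i(f) = lim_k L'_{i+k}(ω k i f)`: the differences of consecutive terms are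
`L'_{i+k+1}((θ_{i+k} - θ'_{i+k}) ω k i f)`, of absolute value `≤ η_{i+k} ‖f‖`, so the limit exists,
uniformly for `‖f‖ ≤ 1` and all `τ'`; `|L_i f - L'_i f| ≤ ∑_{k ≥ i} η_k ‖f‖`, the `L_i` are compatible
with `θ`, and states. This defines `h τ' ∈ T(L)`, depending in an affine way on `τ'`, and
continuously: for `a ∈ D.A i`, `τ' ↦ (h τ')(j_i a)` is a uniform limit of the continuous functions
`τ' ↦ L'_{i+k}(ω k i (ctr a))`, and for general `y ∈ L` approximate `y`. The same with the roles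
exchanged gives `h'`, and `h (h' τ) = τ`: if `L'` is made from `L` and `L''` from `L'` then
`|L''_i f - L_i f| = lim_k |(L'_{i+k} - L_{i+k})(ω k i f)| ≤ lim_k ∑_{l ≥ i+k} η_l ‖f‖ = 0`.
Masses: `c/S = c'/S'` (`S_eq`), so `θ_i` and `θ'_i` agree on the functions which are constant on the
components (see the proof of `S_MASS`), hence `L_i = L'_i` on these functions. -/
def S_TISO : Prop := S_MASS → ∀ (m : ℕ → ℕ) (e : ℕ → Bool → ℕ) (q : ∀ i b, Cb (dm m e i b))
  (S c S' c' : ℕ → ℕ), (Sys.mk m e q S c).Fine → (Sys.mk m e q S' c').Fine →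
  Summable (fun i => 1 - (m i : ℝ) / S i) → Summable (fun i => 1 - (m i : ℝ) / S' i) →
  ∀ (L : Type) [CStarAlgebra L] (j : ∀ i, (Sys.mk m e q S c).A i →⋆ₐ[ℂ] L),
    IsLim (Sys.mk m e q S c).φ j →
  ∀ (L' : Type) [CStarAlgebra L'] (j' : ∀ i, (Sys.mk m e q S' c').A i →⋆ₐ[ℂ] L'),
    IsLim (Sys.mk m e q S' c').φ j' →
  ∃ h : TracialStates L' ≃ₜ TracialStates L,
    (∀ (σ τ ρ : TracialStates L') (t : ℝ), 0 ≤ t → t ≤ 1 →
      (ρ : WeakDual ℂ L') = (t : ℂ) • (σ : WeakDual ℂ L') + ((1 - t : ℝ) : ℂ) • (τ : WeakDual ℂ L') →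
      (h ρ : WeakDual ℂ L) =
        (t : ℂ) • (h σ : WeakDual ℂ L) + ((1 - t : ℝ) : ℂ) • (h τ : WeakDual ℂ L)) ∧
    ∀ τ : TracialStates L', (h τ : WeakDual ℂ L) (j 0 ((Sys.mk m e q S c).one 0 true)) =
      (τ : WeakDual ℂ L') (j' 0 ((Sys.mk m e q S' c').one 0 true))

/-! ## Part 3: projections -/

/-- **PRJ**: projections over the building blocks are equivalent to constant diagonal ones.

PROOF. `Matrix (Fin k) (Fin k) (D.A i)` is `C(D.Z i, M_{k n})` up to reindexing. Let `Q` be a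
projection; `Q_t(b, y) = Q(b, (1-t) y + t y₀)` is a continuous path of projections, and two
projections in a C*-algebra at distance `< 1` are equivalent (`Pool.Graph.R_seed8.TH249`: `JF.close`
and its use in `lim1` in `Lim.lean`; `MA (Fin k) (D.A i)` is the C*-algebra of matrices). By
uniform continuity finitely many steps connect `Q` with the family `Q_1`, constant on each component.
A projection matrix `Q_1(b)` over `ℂ` of size `k n` and rank `ρ b` is `star v * v` with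
`v * star v` = the diagonal projection with `ρ b` ones (orthonormal basis of the range), with the
enumeration `(u, a) ↦ u * n + a` of `Fin k × Fin n`; put `v` on the component `b`. Also: `cp` is a
projection, and for `ρ b ≤ k n` the diagonal entries sum up to
`∑_u ctr (cp u u) = (ρ b / n)` on the component `b`. -/
def S_PRJ : Prop := ∀ D : Sys, D.Good → ∀ (i k : ℕ),
  (∀ Q : Matrix (Fin k) (Fin k) (D.A i), IsPrj Q → ∃ ρ : Bool → ℕ, (∀ b, ρ b ≤ k * D.n i) ∧
    Eqv Q (D.cp i k ρ)) ∧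
  ∀ ρ : Bool → ℕ, (∀ b, ρ b ≤ k * D.n i) → IsPrj (D.cp i k ρ) ∧
    ∀ (L : Type) [CStarAlgebra L] (j : ∀ i, D.A i →⋆ₐ[ℂ] L), IsLim D.φ j →
      ∀ τ ∈ TracialStates L, trM τ ((D.cp i k ρ).map (j i)) =
        ∑ b, ((ρ b : ℝ) / D.n i : ℝ) * τ (j i (D.one i b))

/-- **RNK**: ranks of a projection over the limit at all late stages.

PROOF. By `lim1` (`Pool.Graph.R_seed8.TH249.Lim`; the `D.A i` are nontrivial, `S_EX`) `P` is
equivalent to the image of a projection at every late stage `i`; use `S_PRJ`; images of equivalent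
projections are equivalent (`Eqv.map`, `Eqv.trans`), equivalent projections have the same trace
(`trM τ (vᴴ v) = trM τ (v vᴴ)`). (2): by (1) and `S_PRJ`, `trM τ P = ∑_b (ρ_i b / n_i) w_i b` with
`w_i b = τ(j i (one i b))`, and `w_i b₀ = 1/2 + (1/2)(i+1)/(i+2) = 1 - 1/(2(i+2))` for
`w_0 b₀ = 3/4` by `S_MASS`, `w_i (!b₀) = 1/(2(i+2))`, `ρ_i b ≤ k n_i`. -/
def S_RNK : Prop := S_EX → S_MASS → S_PRJ → ∀ D : Sys, D.Fine → ∀ (L : Type) [CStarAlgebra L]
  (j : ∀ i, D.A i →⋆ₐ[ℂ] L), IsLim D.φ j → ∀ (k : ℕ) (P : Matrix (Fin k) (Fin k) L), IsPrj P →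
  ∃ N : ℕ, ∀ i, N ≤ i → ∃ ρ : Bool → ℕ, (∀ b, ρ b ≤ k * D.n i) ∧
    Eqv P ((D.cp i k ρ).map (j i)) ∧
    (∀ τ ∈ TracialStates L, trM τ P = ∑ b, ((ρ b : ℝ) / D.n i : ℝ) * τ (j i (D.one i b))) ∧
    ∀ τ ∈ TracialStates L, ∀ b, (τ (j 0 (D.one 0 b))).re = 3 / 4 →
      |(trM τ P).re - (ρ b : ℝ) / D.n i| ≤ k / (i + 2)

/-- **K0**: the ordered group `K_0` of the limit, and its pairing with the traces.

PROOF. Let `w = (τ (j 0 (one 0 true))).re`. For a projection `P` with ranks `ρ` at stage `i` (`S_RNK`)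
`S_MASS` gives `trM τ P = (1/n_i)(ρ_t w_i + ρ_f (1 - w_i))`, `w_i = 1/2 + (2w-1)(i+1)/(i+2)`
`= (2w - 1/2) (s₁) + (3/2 - 2w) (s₂)` with `s₁ = (ρ_t (2i+3) + ρ_f)/((2i+4) n_i)`,
`s₂ = (ρ_f (2i+3) + ρ_t)/((2i+4) n_i)` (the values for `w = 3/4`, `w = 1/4`; these traces exist by
`S_EXT`). So `s₁, s₂ ∈ ℚ` depend only on `P`, and are additive; `Θ` is induced by
`P ↦ (s₁, s₂)` (`Algebra.GrothendieckAddGroup.lift`, cf. `K0.map`).
Injective and order: if `P`, `Q` have the same `(s₁, s₂)`, take a common stage `i`, `k` (enlarge by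
zeros, `Eqv.blocks_zero`): the matrix `((2i+3, 1), (1, 2i+3))` is invertible, so they have the same
ranks, hence `Eqv P Q`. An arbitrary element of `K_0` is `[P] - [Q]`, `Θ = 0` iff
`(s₁,s₂)(P) = (s₁,s₂)(Q)` iff (then) `P ~ Q`. Positive elements: `ρ ≠ 0` gives `s₁, s₂ > 0`.
Surjective: let `a, b ∈ ℚ`, `a, b > 0`; for large `i` the numbers
`ρ_t = n_i ((2i+3) a - b)/(2i+2)`, `ρ_f = n_i ((2i+3) b - a)/(2i+2)` are positive integers: `n_i` is
divisible by `(2i+2) · (any given integer)` for large `i`, since `n_i = n_{i-1} S_{i-1}`,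
`S_{i-1} = 2 (i+1)² c_{i-1}` and `n_{i-1}` is divisible by `∏_{l<i-1} c_l`, `(l+1) ∣ c_l`, hence by
`(i-1)!`. Choose `k` with `ρ ≤ k n_i`, `P = (cp i k ρ).map (j i)`. Every pair of rationals is a
difference of two pairs of positive rationals. `Θ [1] = (1, 1)`: `trM τ 1 = 1`. -/
def S_K0 : Prop := S_EX → S_MASS → S_EXT → S_PRJ → S_RNK → ∀ D : Sys, D.Fine →
  ∀ (L : Type) [CStarAlgebra L] (j : ∀ i, D.A i →⋆ₐ[ℂ] L), IsLim D.φ j →
  ∃ Θ : K0 L ≃+ ℚ × ℚ, (∀ x, x ∈ K0.pos L ↔ Θ x = 0 ∨ (0 < (Θ x).1 ∧ 0 < (Θ x).2)) ∧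
    Θ (K0.cls (Prj.of (1 : L) (IsStarProjection.one (R := L)))) = (1, 1) ∧
    ∀ τ ∈ TracialStates L, ∀ P : Prj L, trM τ P.mat =
      ((2 * (τ (j 0 (D.one 0 true))).re - 1 / 2) * ((Θ (K0.cls P)).1 : ℝ) +
        (3 / 2 - 2 * (τ (j 0 (D.one 0 true))).re) * ((Θ (K0.cls P)).2 : ℝ) : ℝ)

/-! ## Part 4: comparison in the building blocks and the upper bound -/

/-- **CMP**: comparison with a constant projection over a cube of dimension `d < 2 Δ`.

PROOF. Use the lemmas `S_GEN`, `S_PP`, `S_CPT` of `Pool.Agent.H252.MD.Iface` (on main; proofs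
`Pool.Agent.H30.MD.s_GEN`, `Pool.Agent.H378.MDPP.s_PP`, `Pool.Agent.H860.MD.s_CPT`, see
`Pool/Agent/H252/MD/All.lean` for the imports). Let `κ = δ/8`. By Stone-Weierstrass (polynomials in
the coordinates) there is `a' : Cb d → Matrix J J ℂ`, Lipschitz (entrywise, for the sup distance of
`Fin d → [0,1]`), with hermitian values and `a y + κ ≥ a' y ≥ a y - κ` (entrywise closeness
`κ/(|J|+1)`, hermitian part). Let `β y` be the positive part of `a' y - 2κ`, i.e.
`IsPP (β y) (a' y - 2κ)` (exists: `cfc`/spectral theorem); it is Lipschitz in `y` (`S_PP` (1)), so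
continuous. As `a' y ≥ a y - κ ≥ δ q - κ`, `S_PP` (3) (with `X = a' y`, `2κ` instead of `κ`) gives
`Q` with `Q * β y` a projection of rank `≥ rank q ≥ k + Δ`, `‖Q‖ ≤ 2/δ`. `S_GEN` with `N = J`,
`I = Cb d`, `α = p` (constant), `β`, `z = 0`, `w = 1`, `D = d` (grid of mesh `ρ/C'`, at most
`C (1/ρ)^d` points) gives a constant matrix `c` with: `β y (c (p ξ)) = 0 → p ξ = 0`. Now
`β³ = β (a' - 2κ) β ≤ β a β` (since `β (a' - 2κ) = β²`, and `a' - 2κ ≤ a - κ ≤ a`). `S_CPT` with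
`α = p`, `β := β³` (same kernel as `β`), `v = c`, `θ = 1/2`: `p ≤ 1/2 + C p c* β³ c p`, compress by
`p`: `(1/2) p ≤ C p c* β³ c p ≤ C p c* β a β c p`. So with `w₀ = p c* β` (continuous in `y`),
`h = w₀ a w₀* ≥ (1/(2C)) p` (`C > 0`) and `h = p h p`; `h + (1-p)` is positive definite and
continuous, `g = (h + (1-p))^{-1/2}` is continuous and commutes with `p`; `w = g w₀` has
`w a w* = g h g = p`. (For the square root use the C*-algebra `C(Cb d, M_J)` of continuous functions: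
positive invertible elements have positive invertible square roots; reindex `J` by `Fin |J|` if
needed; or `S_NRM` below.) If `p = 0` take `w = 0`. -/
def S_CMP : Prop := ∀ (d : ℕ) (J : Type) [Fintype J] [DecidableEq J] (a : Cb d → Matrix J J ℂ),
  Continuous a → (∀ y, (a y).PosSemidef) → ∀ (δ : ℝ) (k Δ : ℕ), 0 < δ → d < 2 * Δ →
  (∀ y, ∃ q : Matrix J J ℂ, IsStarProjection q ∧ k + Δ ≤ q.rank ∧
    (a y - (δ : ℂ) • q).PosSemidef) →
  ∀ p : Matrix J J ℂ, IsStarProjection p → p.rank ≤ k →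
  ∃ w : Cb d → Matrix J J ℂ, Continuous w ∧ ∀ y, w y * a y * star (w y) = p

/-- **NRM**: normalisation.

PROOF. Let `h = p g b g* p ≥ p - p‖g b g* - p‖p ≥ (1-t) p`, `t = ‖g b g* - p‖ < 1` (`b = star x * x`),
`h = p h p`. `h + (1 - p)` is positive and invertible; let `r` be the inverse of its positive square
root (`r = cfc (fun t => 1/√t)`), it commutes with `p`, `r h r = p`. Put `w = p' r p g`. Then
`w b w* = p' r h r p' = p' p p' = p'`. -/
def S_NRM : Prop := ∀ (B : Type) [CStarAlgebra B] (x g p p' : B), IsStarProjection p →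
  IsStarProjection p' → p * p' = p' → ‖g * (star x * x) * star g - p‖ < 1 →
  ∃ w : B, w * (star x * x) * star w = p'

/-- **RD**: Rørdam's lemma, in a weak form, and two more facts on Cuntz comparison.

PROOF. (1) `(a-η)₊ ≾ b` if `‖a - b‖ < η`, `a`, `b ≥ 0`: in the library, e.g. `t_DOM` in
`Pool/Graph/R_pool_sql_team_seeded_620a6dc7/H107_ZS/TDOM.lean` (`a ≤ η' + b` implies
`Cz (cut η' a) b`; see `Pool/Agent/H252/MD/Cuntz.lean`, and `UQ` files) or `H327R4/Pure`. (2)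
transitivity: if `‖v b v* - a‖ < ε/2` and `‖w c w* - b‖ < ε/(2(‖v‖²+1))` then
`‖(v w) c (v w)* - a‖ < ε`. (3) `v = w`. (4) `‖v b v* - p‖ < 1` for a projection `p`, hence
`w b w* = p` for some `w` (`S_NRM` with `p' = p`). (5) partial isometry: `u p u* = u u* u u* = x`. -/
def S_RD : Prop := S_NRM → ∀ (B : Type) [CStarAlgebra B],
  (∀ (y z : B) (η : ℝ), 0 < η → ‖star y * y - star z * z‖ < η →
    CLE (cut η (star y * y)) (star z * z)) ∧
  (∀ a b c : B, CLE a b → CLE b c → CLE a c) ∧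
  (∀ w b : B, CLE (w * b * star w) b) ∧
  (∀ (p y : B), IsStarProjection p → CLE p (star y * y) → ∃ w, w * (star y * y) * star w = p) ∧
  (∀ u : B, IsStarProjection (star u * u) → CLE (u * star u) (star u * u))

/-- **SPEC**: spectral projections of positive contractions over the blocks.

PROOF. Evaluation at `z` is a `*`-homomorphism, so `(cut η a) z` is the positive part of `a z - η`
(`StarAlgHomClass.map_cfc`). Diagonalise `a z` (spectral theorem): eigenvalues `t ∈ [0,1]`; `q` = sum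
of the spectral projections for `t ≥ 2η`; `tr (a z) ≤ rank q + 2η n`, and `(t-η)₊ ≥ η` for `t ≥ 2η`. -/
def S_SPEC : Prop := ∀ (Z : Type) [TopologicalSpace Z] [CompactSpace Z] (n : ℕ) (a : BB Z n),
  (∃ y, a = star y * y) → (∃ y, 1 - a = star y * y) → ∀ (η : ℝ), 0 < η →
  (∃ y, cut η a = star y * y) ∧ ∀ z : Z,
  ∃ q : Matrix (Fin n) (Fin n) ℂ, IsStarProjection q ∧
    (a z).trace.re - 2 * η * n ≤ q.rank ∧ ((cut η a) z - (η : ℂ) • q).PosSemidef

/-- **UP**: the upper bound.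

PROOF. Suppose `x, z, b` are as in `Wit`, we show `CLE x b`. Fix `τ_t`, `τ_f ∈ T(L)` with
`(τ_t (j 0 (one 0 true))).re = 3/4`, `(τ_f (j 0 (one 0 false))).re = 3/4` (`S_EXT`; masses add up to
`1`, so `(τ_t e).re = 1/4`, `(τ_f e).re = 3/4`, `e = j 0 (one 0 false)`). `τ_t x < τ_t z` and
`τ x + s < τ b` for all `τ` with `(τ e).re = 3/4`; for these `τ` the value `(τ x).re` is the same
number `x_f := (τ_f x).re` (`S_RNK`: `|(τ x).re - ρ_i false / n_i| ≤ 1/(i+2)` for all large `i`, the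
same for `τ` and `τ_f`). `S_UPT` with `y = b`, threshold `x_f + s`: `η₁`, `N₁`.
By `S_RD` (4) there is `v₀ ∈ L` with `v₀ b v₀* = z`. For every large `i` let `ρ`, `σ` be the
ranks of `x`, `z` at stage `i` (`S_RNK` for the `1 × 1` matrices), `p = D.cp i 1 ρ 0 0`,
`p_z = D.cp i 1 σ 0 0` in `D.A i`; `x ~ j p`, `z ~ j p_z`. Since `ρ true / n_i → (τ_t x).re <
(τ_t z).re ← σ true / n_i`, `ρ true ≤ σ true` for large `i`. Let `u ∈ L`, `u u* = j p_z`, `u* u = z`
(or conversely); `g = u v₀` has `g b g* = j p_z`, with `‖g‖ ≤ ‖v₀‖`.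
Let `η > 0` be small compared with `η₁`, `s - s'`, `1/(‖v₀‖²+1)`. For large `i` there are
`a = star y * y ∈ D.A i`, `1 - a = star y' * y'`, `‖j a - b‖ < η` (approximate the positive square
root of `b` by `y₀`, and replace `star y₀ * y₀` by `star y₀ * y₀ / max(1, ‖y₀‖²)`), and `g_i ∈ D.A i`
with `‖j g_i - g‖` as small as we want - the element `g` depends on `i`, but it is `u v₀` and
`‖g‖ ≤ ‖v₀‖`; to get `g_i` at the same stage `i`: fix one stage `i₁`, `u₁`, `g₁ = u₁ v₀` with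
`g₁ b g₁* = j_{i₁} p_z^{(1)}`, approximate `g₁` by a `j_{i₂} g'`, and for `i ≥ i₁, i₂` use that the
image of `p_z^{(1)}` in `D.A i` is equivalent IN `D.A i` to a `cp` (`S_PRJ`), whose ranks must be `σ`
(same traces, two traces `τ_t`, `τ_f`: `S_MASS`); so `g_i = u' (tr g')`, `u' ∈ D.A i`.
Then `‖g_i (cut η a) g_i* - p_z‖ < 1/2` in `D.A i` (`‖cut η a - a‖ ≤ η`, `j i` is isometric).
Let `a' = cut η a` (`= star y'' * y''`, `S_SPEC`).
Component `true`: `p` restricted to the component `true` is `p_t = p * one i true ≤ p_z * one i true`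
(constant diagonal projections, `ρ true ≤ σ true`); `S_NRM` in `D.A i` with `p := p_z * one i true`,
`g := (one i true) g_i` (the projection `one i true` is central), `p' := p_t` gives `w_t ∈ D.A i`
with `w_t a' w_t* = p_t`; replace `w_t` by `one i true * w_t`.
Component `false`: for `y : Cb (D.d i false)`: `(ntr (a ⟨false,y⟩)).re ≥ x_f + s + η₁` (`S_UPT`,
`η ≤ η₁`), so by `S_SPEC` there is `q` with `rank q ≥ n_i (x_f + s + η₁ - 2η)`, `a' ≥ η q` at
`⟨false, y⟩`; and `ρ false ≤ n_i (x_f + 1/(i+2))`, `Δ = ⌊D.d i false / 2⌋ + 1 ≤ n_i s' + 1`. For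
large `i` (`n_i → ∞`, as `S i ≥ 2`) `ρ false + Δ ≤ rank q`. `S_CMP` gives `w_f` on the cube with
`w_f a' w_f* = p`. Let `w ∈ D.A i` be `w_t` on the component `true` and `w_f` on the component
`false`; `w a' w* = p`. So `x ~ j p ≾ j a' = cut η (j a) ≾ b` (`S_RD`). -/
def S_UP : Prop := S_EX → S_MASS → S_EXT → S_UPT → S_PRJ → S_RNK → S_CMP → S_NRM → S_RD → S_SPEC →
  ∀ D : Sys, D.Fine → ∀ (L : Type) [CStarAlgebra L] (j : ∀ i, D.A i →⋆ₐ[ℂ] L), IsLim D.φ j →
  ∀ s s' : ℝ, s' < s → (∀ᶠ i in atTop, (D.d i false : ℝ) ≤ 2 * s' * D.n i) →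
  ¬ Wit L (j 0 (D.one 0 false)) s

/-! ## Part 5: the lower bound -/

/-- **BU**: a family of injective maps from a trivial bundle of dimension `|W|` to the sum of the Bott
line bundles over a product of two-spheres and a trivial bundle of dimension `|V|` exists only if
`|W| ≤ |V|`.

PROOF. Use the triangular Borsuk-Ulam theorem `triangular` in
`Pool/Graph/R_seed8/Helper133/BUProd.lean` (a triangular system of `n i` continuous functions of
leading index `i`, which are odd in the `i`-th sphere, even or odd in the spheres with smaller index,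
even in the spheres with larger index, has a common zero on the product of the spheres of dimension
`n i`; see `Pool/Agent/H252/VR/Comp.lean` or `Pool.Agent.H254.BR.BUApp` for applications). Spheres:
number `0` is the unit sphere of `ℂ^W` (dimension `2|W| - 1`), and for every `i ∈ I` a sphere
`S³ ⊂ ℂ²`, `z_i`, of dimension `3`. Let `x_i = Hopf(z_i) ∈ S²` be the point with
`bott (x_i) = z_i z_i*`, i.e. `x = (2 Re(z̄_1 z_2), 2 Im(z̄_1 z_2), |z_1|² - |z_2|²)` (check the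
signs against `bott`), continuous and even. For `ξ ∈ ℂ^W` let `η = T(x) ξ`; the functions are
`F_i(z, ξ) = ⟨z_i, η_i⟩ ∈ ℂ` (two real functions, odd in `z_i`, even in the other `z_l`, odd in
`ξ`), `i ∈ I`, and the `2|V|` real coordinates of the `V`-part of `η` (odd in `ξ`, even in all
`z_i`), `2|V| ≤ 2|W| - 2`; add functions `0` (or repeat functions) to have exactly `n i`. At a common
zero `η_i = bott(x_i) η_i = z_i ⟨z_i, η_i⟩ = 0` and the `V`-part is `0`: so `T(x) ξ = 0`, `ξ ≠ 0`. -/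
def S_BU : Prop := ∀ (I V W : Type) [Fintype I] [DecidableEq I] [Fintype V] [Fintype W]
  (T : (I → S2) → Matrix ((I × Fin 2) ⊕ V) W ℂ), Continuous T → Fintype.card V < Fintype.card W →
  (∀ x (ξ : W → ℂ) (i : I), (bott (x i)).mulVec (fun t => (T x).mulVec ξ (Sum.inl (i, t))) =
    fun t => (T x).mulVec ξ (Sum.inl (i, t))) →
  ∃ (x : I → S2) (ξ : W → ℂ), ξ ≠ 0 ∧ (T x).mulVec ξ = 0

/-- **EMB**: a product of `k` two-spheres embeds in the cube of dimension `2k+1`.

PROOF. Construct by induction an injective continuous map `J_k : (Fin k → S2) × ℝ → (Fin (2k+1) → ℝ)`: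
`J_0 (_, t) = t`; `J_{k+1} ((x, x'), t) = (J_k (x, u_0), u_1, u_2)` where `u = e^t x' ∈ ℝ³`. Injective:
`J_k` injective gives `x` and `u_0`; so `u = e^t x'` is known, `t = log ‖u‖`, `x' = u/‖u‖`. Then
restrict to `t = 0` and compose with `ℝ → (0,1)` in every coordinate (`arctan`), and add zero
coordinates if `d > 2k+1`. -/
def S_EMB : Prop := ∀ k d : ℕ, 2 * k + 1 ≤ d → ∃ ι : (Fin k → S2) → Cb d, Continuous ι ∧
  Function.Injective ι

/-- **ELT**: extension of the Bott bundle to a positive contraction over the cube with large trace.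

PROOF. Let `ι` be as in `S_EMB`, `K = range ι`, compact; `x ↦ bottE u x` is continuous, with values
projections of trace `k` (as `u` is injective; `bott x` is a projection of trace `1`). By injectivity
and compactness `ι` is a closed embedding, so by Tietze's theorem (entrywise, for real and imaginary
parts) there is a continuous `g₀ : Cb d → Matrix J J ℂ` with `g₀ (ι x) = bottE u x`; dividing by
`max(1, ‖g₀ y‖)` (operator norm) we get `g` with `‖g y‖ ≤ 1` and the same values on `K`. Let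
`h = star g * g`; `0 ≤ h ≤ 1`, `h (ι x) = bottE u x`. `Re tr h` is continuous and `= k` on `K`, so
`U = {y | Re tr h(y) > k - η}` is an open neighbourhood of `K`; let `ψ : Cb d → [0,1]` be
continuous, `0` on `K` and `1` off `U` (Urysohn). `β = h + ψ (1 - h)`: `0 ≤ h ≤ β ≤ 1`
(`1 - β = (1-ψ)(1-h)`), `β = h` on `K`, `tr β ≥ tr h ≥ k - η` on `U`, and `β = 1`, `tr β = |J| ≥ 2k ≥ k`
off `U`. -/
def S_ELT : Prop := S_EMB → ∀ (k d : ℕ) (J : Type) [Fintype J] [DecidableEq J]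
  (u : Fin k × Fin 2 → J) (η : ℝ), 2 * k + 1 ≤ d → Function.Injective u → 0 < η →
  ∃ (ι : (Fin k → S2) → Cb d) (β : Cb d → Matrix J J ℂ), Continuous ι ∧ Continuous β ∧
    (∀ y, (β y).PosSemidef ∧ (1 - β y).PosSemidef ∧ (k : ℝ) - η ≤ (β y).trace.re) ∧
    ∀ x, β (ι x) = bottE u x

/-- **CORE**: non-comparison in the limit.

PROOF. Let `ε = 1/(2 (M+1))²` or so, and suppose `v ∈ M_M(L)` with all entries of
`v B v* - X` (images in `M_M(L)`) of norm `< ε`. Approximate the entries of `v` by elements of a stage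
`i + r`: there is `v' ∈ M_M(D.A (i+r))` with all entries of `v' B' v'* - X'` of norm `< ε` (strictly),
`B' = B.map (D.tr i r)`, `X' = X.map (D.tr i r)` (`j (i+r) (D.tr i r a) = j i a`; `j` is isometric).
Take `P`, `l`, `G`, `E` from `S_PATCH`. For a point `z ∈ D.Z (i+r)` consider the matrices over `ℂ` with
index set `Fin M × Fin (D.n (i+r)) ≃ (Fin M × Fin (D.n i)) × P`. `B'(z)` is block diagonal with the
blocks `B(l p z)`, `p ∈ P`; `X'(z)` likewise. For `x : {p // G p} × Fin k' → S2` (`k' = k₂` spheres for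
every `p ∈ G`) let `y p = ι (x (p, ·))`, `z = z(x) = ⟨b, F y⟩`. For `p ∈ G`: `B(l p z) = β(y p) =
bottE u (x (p,·))`, and `X(l p z)` is the diagonal projection of rank `k` (`cp`, the component is `b`).
For `p ∉ G`, `l p z` does not depend on `x`. Let `W` = the set of pairs (`p ∈ G`, index
`(s,a) ∈ Fin M × Fin (D.n i)` with `s * n_i + a < k`), `|W| = k |G|`, and let `H = ℂ^W` be included in
`ℂ^((Fin M × Fin n_i) × P)`; it is contained in the range of `X'(z)`. For `ξ ∈ H`: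
`‖(v' B' v'*)(z) ξ - ξ‖ ≤ (1/2)‖ξ‖` (entries: `M²` blocks of norm `< ε`; operator norm
`≤ M · ε·M`), so `B'(z) v'(z)* ξ ≠ 0` for `ξ ≠ 0`. Define `T(x) ξ` by the coordinates of
`B'(z(x)) v'(z(x))* ξ`: for `p ∈ G` the vector `bottE u (x(p,·)) η_p` is determined by its
coordinates at the `u (t, _)`, which form a vector in the range of `bott (x (p,t))` for every `t`;
for `p ∉ G` take all coordinates, `V = (Fin M × Fin n_i) × {p // ¬ G p}`. `T` is continuous and
injective, `I = {p // G p} × Fin k₂`. By `S_BU`, `|W| ≤ |V|`: `k |G| ≤ M n_i (|P| - |G|)`,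
contradicting `hk r`. -/
def S_CORE : Prop := S_PATCH → S_BU → ∀ D : Sys, D.Good → ∀ (L : Type) [CStarAlgebra L]
  (j : ∀ i, D.A i →⋆ₐ[ℂ] L), IsLim D.φ j → ∀ (i M k k₂ : ℕ) (b : Bool)
  (ι : (Fin k₂ → S2) → Cb (D.d i b)) (u : Fin k₂ × Fin 2 → Fin M × Fin (D.n i))
  (β : Cb (D.d i b) → Matrix (Fin M × Fin (D.n i)) (Fin M × Fin (D.n i)) ℂ)
  (B : Matrix (Fin M) (Fin M) (D.A i)), Continuous ι → Function.Injective u →
  (∀ x, β (ι x) = bottE u x) →
  (∀ s t y a a', B s t ⟨b, y⟩ a a' = β y (s, a) (t, a')) → k ≤ M * D.n i →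
  (∀ r, M * D.n i * ∏ l ∈ Finset.range r, D.S (i + l) <
    (k + M * D.n i) * ∏ l ∈ Finset.range r, D.m (i + l)) →
  ¬ CuntzLE ((D.cp i M fun b' => if b' = b then k else 0).map (j i)) (B.map (j i))

/-- **BLD**: the matrix over the block with prescribed values on one component and `1` on the other.

PROOF. Put `B s t = ⟨fun z => if z is in the component b, z = ⟨b, y⟩, then (β y (s,a) (t,a'))_{a,a'},
else if s = t then 1 else 0⟩`. It is positive and `≤ 1`: the positive square root of a continuous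
positive matrix function is continuous (functional calculus in the C*-algebra
`MA (Fin M) (D.A i)` or `C(D.Z i, M_{M n})`; transport by the obvious `*`-isomorphism
`Matrix (Fin M) (Fin M) C(Z, M_n) ≃ C(Z, Matrix (Fin M × Fin n) (Fin M × Fin n) ℂ)`). Trace:
`trM τ (B.map j) = τ(j (∑_s B s s))`, `ctr (∑_s B s s) = tr(β y)/n_i` at `⟨b, y⟩` and `= M` on the
other component; so `ctr (∑_s B s s) - (κ/n_i) ≥ 0` if `κ ≤ tr β(y)`, `κ ≤ M n_i`, and `τ ∘ j ∘ sc`
is a state on `C(D.Z i)` (`S_MASS` (1)). -/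
def S_BLD : Prop := S_MASS → ∀ D : Sys, D.Fine → ∀ (i M : ℕ) (b : Bool)
  (β : Cb (D.d i b) → Matrix (Fin M × Fin (D.n i)) (Fin M × Fin (D.n i)) ℂ) (κ : ℝ),
  Continuous β → (∀ y, (β y).PosSemidef ∧ (1 - β y).PosSemidef ∧ κ ≤ (β y).trace.re) →
  κ ≤ M * D.n i →
  ∃ B : Matrix (Fin M) (Fin M) (D.A i), (∃ y : Matrix (Fin M) (Fin M) (D.A i), B = star y * y) ∧
    (∃ y : Matrix (Fin M) (Fin M) (D.A i), 1 - B = star y * y) ∧
    (∀ s t y a a', B s t ⟨b, y⟩ a a' = β y (s, a) (t, a')) ∧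
    (∀ s t y, B s t ⟨!b, y⟩ = if s = t then 1 else 0) ∧
    ∀ (L : Type) [CStarAlgebra L] (j : ∀ i, D.A i →⋆ₐ[ℂ] L), IsLim D.φ j →
      ∀ τ ∈ TracialStates L, κ / D.n i ≤ (trM τ (B.map (j i))).re

/-- **LOW**: the witnesses.

PROOF. Choose `δ > 0` with `s + 2δ < s''`, `δ ≤ 1/8`, and a large `i`: the eventual hypotheses hold at
`i`, `n_i δ ≥ 2`, and the tail condition holds with `δ' = δ/4` instead of `δ`. Let
`k₂ = (D.d i false - 1)/2` (natural number division), so `2 k₂ + 1 ≤ D.d i false ≤ D.d i b₀`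
(`D.d i false ≥ 1`), `2 k₂ ≤ n_i`, `k₂ ≥ D.d i false / 2 - 1 ≥ s'' n_i - 1`; `k = ⌈δ n_i/2⌉ ≤ n_i`.
`M = 1`, `u : Fin k₂ × Fin 2 → Fin 1 × Fin n_i` injective, `η = 1`. `S_ELT` gives `ι`, `β` with trace
`≥ k₂ - 1`, `S_BLD` with `κ = k₂ - 1` (`≤ n_i`) gives `B` (a `1 × 1` matrix), and `b := j i (B 0 0)`,
`x := j i (D.cp i 1 (fun b' => if b' = b₀ then k else 0) 0 0)`, `z := j i (D.one i (!b₀))`.
`S_CORE` applies: `n_i ∏ S < (k + n_i) ∏ m` because `(1 - δ/4) ∏ S ≤ ∏ m` and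
`1/(1-δ/4) < 1 + δ/2 ≤ 1 + k/n_i`; so `¬ CuntzLE` for the `1 × 1` matrices, i.e. `¬ CLE x b`.
`z b z = z` (`B = 1` on the other component), so `CLE z b`. Traces: with
`w = τ(j i (one i b₀))`: `τ x = (k/n_i) w ≤ k/n_i ≤ δ/2 + 1/n_i`, `τ z = 1 - w`. If `(τ e).re = 1/4`,
`e = j 0 (one 0 b₀)`, then `w = 1/2 - (1/2)(i+1)/(i+2) = 1/(2(i+2)) ≤ 1/4`, `τ z ≥ 3/4`,
`τ x ≤ 1/4`. In any case `τ b ≥ (k₂ - 1)/n_i ≥ s'' - 2/n_i`, so
`τ x + s ≤ δ/2 + 1/n_i + s < s'' - 2/n_i ≤ τ b` if `3/n_i < δ`. -/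
def S_LOW : Prop := S_MASS → S_PATCH → S_BU → S_EMB → S_ELT → S_CORE → S_BLD → S_PRJ →
  ∀ D : Sys, D.Fine → ∀ (L : Type) [CStarAlgebra L] (j : ∀ i, D.A i →⋆ₐ[ℂ] L), IsLim D.φ j →
  ∀ s s'' : ℝ, s < s'' → 0 ≤ s → (∀ i, D.d i false ≤ D.d i true ∧ D.d i false ≤ D.n i ∧ 1 ≤ D.d i false) →
  (∀ᶠ i in atTop, 2 * s'' * D.n i ≤ (D.d i false : ℝ)) →
  (∀ δ : ℝ, 0 < δ → ∀ᶠ i in atTop, ∀ r, (1 - δ) * ∏ l ∈ Finset.range r, (D.S (i + l) : ℝ) ≤
    ∏ l ∈ Finset.range r, (D.m (i + l) : ℝ)) →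
  ∀ b₀ : Bool, Wit L (j 0 (D.one 0 b₀)) s

/-- **DIM**: dimension functions of projections and of positive contractions.

PROOF. Work in the C*-algebra `MA (Fin n) L` (`Pool.Graph.R_seed8.TH249.Lim`) or `CStarMatrix`.
(1) `a = star x * x`, `a * a = a`: all roots are `a`. (2) `r m = a^{1/(m+1)}` (`cfc`); `t^{1/(m+1)}`
increases with `m` for `t ∈ [0,1]`, so `(trM τ (r m)).re` is increasing and bounded by `n`; it
converges to its supremum, which is `≥` the value at `m = 0`, `(trM τ a).re`. (`trM τ` is positive: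
`trM τ (star x * x) = ∑_{i,k} τ(star x_ki x_ki) ≥ 0`.) -/
def S_DIM : Prop := ∀ (L : Type) [CStarAlgebra L] (n : ℕ) (a : Matrix (Fin n) (Fin n) L),
  ∀ τ ∈ TracialStates L,
  (IsPrj a → HasDim τ a (trM τ a).re) ∧
  ((∃ y : Matrix (Fin n) (Fin n) L, a = star y * y) →
    (∃ y : Matrix (Fin n) (Fin n) L, 1 - a = star y * y) → ∃ d, (trM τ a).re ≤ d ∧ HasDim τ a d)

/-- **RCI**: the radius of comparison is infinite.

PROOF. `rc L = ⊤`: no `r : ℝ≥0` has the property. Let `R : ℕ`, `R ≥ r`, and let `i` be large. Put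
`M = 2 (R + 3)`, `k₂ = (R+3) n_i`, so `2 k₂ = M n_i` and `2 k₂ + 1 ≤ D.d i true` for large `i`;
`k = n_i`, `u` a bijection, `η = 1`, `S_ELT` (`J = Fin M × Fin n_i`), `S_BLD` with `κ = k₂ - 1`,
component `true`. `a = (D.cp i M (fun b' => if b' = true then n_i else 0)).map (j i)` is a projection
with `(trM τ a).re = w ≤ 1`, `b = B.map (j i)` has `(trM τ b).re ≥ (k₂-1)/n_i ≥ R + 2`. By `S_DIM`
`d_τ(a) + r < d_τ(b)` for all `τ`, and `¬ CuntzLE a b` by `S_CORE`:
`M n_i ∏ S < (n_i + M n_i) ∏ m` since `(1-δ) ∏ S ≤ ∏ m` with `δ = 1/(2(M+1))`. -/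
def S_RCI : Prop := S_MASS → S_PATCH → S_BU → S_EMB → S_ELT → S_CORE → S_BLD → S_PRJ → S_DIM →
  ∀ D : Sys, D.Fine → ∀ (L : Type) [CStarAlgebra L] (j : ∀ i, D.A i →⋆ₐ[ℂ] L), IsLim D.φ j →
  (∀ R : ℕ, ∀ᶠ i in atTop, R * D.n i + 1 ≤ D.d i true) →
  (∀ δ : ℝ, 0 < δ → ∀ᶠ i in atTop, ∀ r, (1 - δ) * ∏ l ∈ Finset.range r, (D.S (i + l) : ℝ) ≤
    ∏ l ∈ Finset.range r, (D.m (i + l) : ℝ)) →
  rc L = ⊤

/-! ## Part 6: non-isomorphism and the numbers -/

/-- **NISO**: isomorphic limit algebras have the same invariant.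

PROOF. Let `Φ : L ≃⋆ₐ[ℂ] L'`, `e = j 0 (one 0 false)`, `e' = j' 0 (D'.one 0 false)`,
`f = Φ e`, a projection of `L'`. `τ' ↦ τ' ∘ Φ` is a bijection `T(L') → T(L)`. By `S_K0` (for the
`1 × 1` matrix `f`, `P = Prj.of f _`) `(τ' f).re = α + β w'(τ')`, `w' = (τ' e').re ∈ [1/4, 3/4]`
(use `(τ' (one true)).re = 1 - w'`), with fixed `α`, `β`, and the values `w' = 1/4`, `3/4` occur
(`S_EXT`); also `(τ e).re`, `τ ∈ T(L)`, has minimum `1/4` and maximum `3/4` (attained). Hence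
`{α + β/4, α + 3β/4} = {1/4, 3/4}`: either `(τ' f).re = (τ' e').re` for all `τ'`, or
`(τ' f).re = 1 - (τ' e').re = (τ' (j' 0 (D'.one 0 true))).re` for all `τ'`. `Wit L' f s` depends on
`f` only through the function `τ' ↦ (τ' f).re` on `T(L')`, so it follows from `Wit` for
`j' 0 (D'.one 0 b)`, `b = false` or `true`; transport to `L` by `Φ⁻¹`: `Wit L e s`. -/
def S_NISO : Prop := S_EX → S_MASS → S_EXT → S_PRJ → S_RNK → S_K0 →
  ∀ D D' : Sys, D.Fine → D'.Fine →
  ∀ (L : Type) [CStarAlgebra L] (j : ∀ i, D.A i →⋆ₐ[ℂ] L), IsLim D.φ j →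
  ∀ (L' : Type) [CStarAlgebra L'] (j' : ∀ i, D'.A i →⋆ₐ[ℂ] L'), IsLim D'.φ j' →
  ∀ s : ℝ, (∀ b, Wit L' (j' 0 (D'.one 0 b)) s) → ¬ Wit L (j 0 (D.one 0 false)) s →
  IsEmpty (L ≃⋆ₐ[ℂ] L')

/-- **PTS**: there are points as in `Dns`.

PROOF. For every `(i, b)` let `u i b : ℕ → Cb (dm m e i b)` be a dense sequence
(`TopologicalSpace.denseSeq`). Enumerate: at stage `k` let `(i, t) = Nat.unpair k` (`i ≤ k`), and let
`q k b` be a point of `Cb (dm m e k b)` which is mapped to `u i b t` by the composition of the first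
coordinate projections (`pj 0`) from stage `k` to stage `i` (these are surjective, `m ≥ 1`): fill up
with zeros. Formally: prove by induction on `k - i` that for every `y : Cb (dm m e i b)` there is a
chain `p l : Cb (dm m e l b)` for all `l`, with `p i = y` and `p l = pj 0 (p (l+1))` for `l ≥ i`
(define `p` upwards by recursion, arbitrary below `i`). Given `i`, `b`, `U` choose `t` with
`u i b t ∈ U` and `k = Nat.pair i t ≥ i`. -/
def S_PTS : Prop := ∀ (m : ℕ → ℕ) (e : ℕ → Bool → ℕ), (∀ i, 1 ≤ m i) →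
  ∃ q : ∀ i b, Cb (dm m e i b), ∀ S c : ℕ → ℕ, (Sys.mk m e q S c).Dns

/-- **NUM**: the numbers of the family.

PROOF. `t_i = 2 (i+2)²`, `C_i = 4^(i+1) (i+1)`, `cc ω i = C_i` or `C_i + (i+1)`,
`SS ω i = t_i cc ω i`, `mm i = (t_i - 2) C_i`. (1) `mm + cc + 1 ≤ SS`: `(t-2) C + c + 1 ≤ t c` as
`c ≥ C ≥ 1`, `t ≥ 8`. (2) by induction `dm i false ≤ dm i true` (`ee i false = 0`),
`dm i false ≤ sz i` (`mm ≤ SS`), `1 ≤ dm i false`. (3) `dm (i+1) true ≥ ee i true =
(i+1) sz (SS true) (i+1) ≥ (i+1) sz (SS ω) (i+1)` (monotone in `ω`); `sz i ≥ 1`. (4) `1 - mm/SS ≤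
1 - (1 - 1/(i+2)²)/(1 + 4^-(i+1)) ≤ 1/(i+2)² + 4^-(i+1)`. (5) `∏_{l<r} mm(i+l)/SS(i+l) ≥
∏ (1 - 1/(i+l+2)²) · ∏ 1/(1+4^-(i+l+1)) ≥ ((i+1)/(i+2)) · exp(-∑_{l≥0} 4^-(i+l+1)) ≥
((i+1)/(i+2)) (1 - 4^-i) → 1`. (6) `x_i(ω) = dm i false / sz (SS ω) i = ∏_{l<i} mm l / SS ω l` is
decreasing, positive, and bounded below, it converges to some `2 r(ω) > 0`. If `ω ≠ ω'` let `i₀` be
the first index where they differ, say `ω i₀ = true`, `ω' i₀ = false`. For `i > i₀`,
`x_i(ω')/x_i(ω) = (1 + 4^-(i₀+1)) ∏_{i₀<l<i} (1+4^-(l+1))^{±1 or 0} ≥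
(1 + θ) / exp(∑_{l>i₀} 4^-(l+1)) = (1+θ) exp(-θ/3) =: Q > 1`, `θ = 4^-(i₀+1)`. So
`r(ω') ≥ Q r(ω) > r(ω)`; choose `r(ω) < s' < s < s'' < r(ω')` (`x_i(ω) → 2 r(ω) < 2 s'`,
`x_i(ω') ≥ 2 r(ω') > 2 s''`). In the other case exchange the roles. -/
def S_NUM : Prop := ∀ q : ∀ i b, Cb (dm mm ee i b),
  (∀ ω, (DD q ω).Fine) ∧
  (∀ ω i, (DD q ω).d i false ≤ (DD q ω).d i true ∧ (DD q ω).d i false ≤ (DD q ω).n i ∧
    1 ≤ (DD q ω).d i false) ∧
  (∀ ω, ∀ R : ℕ, ∀ᶠ i in atTop, R * (DD q ω).n i + 1 ≤ (DD q ω).d i true) ∧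
  (∀ ω, Summable fun i => 1 - (mm i : ℝ) / SS ω i) ∧
  (∀ ω, ∀ δ : ℝ, 0 < δ → ∀ᶠ i in atTop, ∀ r,
    (1 - δ) * ∏ l ∈ Finset.range r, ((DD q ω).S (i + l) : ℝ) ≤
      ∏ l ∈ Finset.range r, ((DD q ω).m (i + l) : ℝ)) ∧
  ∀ ω ω', ω ≠ ω' → ∃ s' s s'' : ℝ, 0 ≤ s ∧ s' < s ∧ s < s'' ∧
    (((∀ᶠ i in atTop, ((DD q ω).d i false : ℝ) ≤ 2 * s' * (DD q ω).n i) ∧
      (∀ᶠ i in atTop, 2 * s'' * (DD q ω').n i ≤ ((DD q ω').d i false : ℝ))) ∨
    ((∀ᶠ i in atTop, ((DD q ω').d i false : ℝ) ≤ 2 * s' * (DD q ω').n i) ∧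
      (∀ᶠ i in atTop, 2 * s'' * (DD q ω).n i ≤ ((DD q ω).d i false : ℝ))))

end Pool.Agent.H252.EL
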