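import Pool.Agent.H252.EL.Main
import Pool.Agent.H230.EL_EX
import Pool.Agent.H286.EL_PATCH
import Pool.Agent.H603.EL_SIMPLE
import Pool.Agent.H803.EL_K1
import Pool.Agent.H772.EL_TRB
import Pool.Agent.H400.EL_MASS
import Pool.Agent.H638.EL_EXT
import Pool.Agent.H407.EL_UPT
import Pool.Agent.H828.EL_TISO
import Pool.Agent.H278.EL_PRJ
import Pool.Agent.H784.EL_RNK
import Pool.Agent.H200.EL_K0
import Pool.Agent.H597.EL_CMP
import Pool.Agent.H922.EL_NRM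
import Pool.Agent.H282.EL_RD
import Pool.Agent.H127.EL_SPEC
import Pool.Agent.H389.EL_UP
import Pool.Agent.H350.EL_BU
import Pool.Agent.H415.EL_EMB
import Pool.Agent.H155.EL_ELT
import Pool.Agent.H935.EL_CORE
import Pool.Agent.H100.EL_BLD
import Pool.Agent.H106.EL_LOW
import Pool.Agent.H196.EL_DIM
import Pool.Agent.H52.EL_RCI
import Pool.Agent.H921.EL_NISO
import Pool.Agent.H94.EL_PTS
import Pool.Agent.H407.EL_NUM

/-!
# All the statements of the interface hold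
-/

set_option autoImplicit false

namespace Pool.Agent.H252.EL

theorem allS : AllS where
  ex := Pool.Agent.H230.ELEX.s_EX
  patch := Pool.Agent.H286.ELPATCH.s_PATCH
  simple := Pool.Agent.H603.ELSIMPLE.s_SIMPLE
  k1 := Pool.Agent.H803.ELK1.s_K1
  trb := Pool.Agent.H772.ELTRB.s_TRB
  mass := Pool.Agent.H400.ELMASS.s_MASS Pool.Agent.H772.ELTRB.s_TRB
  ext := Pool.Agent.H638.ELEXT.s_EXT
  upt := Pool.Agent.H407.ELUPT.s_UPT
  tiso := Pool.Agent.H828.ELTISO.s_TISO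
  prj := Pool.Agent.H278.ELPRJ.s_PRJ
  rnk := Pool.Agent.H784.ELRNK.s_RNK
  k0 := Pool.Agent.H200.ELK0.s_K0
  cmp := Pool.Agent.H597.ELCMP.s_CMP
  nrm := Pool.Agent.H922.ELNRM.s_NRM
  rd := Pool.Agent.H282.ELRD.s_RD
  spec := Pool.Agent.H127.ELSPEC.s_SPEC
  up := Pool.Agent.H389.ELUP.s_UP
  bu := Pool.Agent.H350.ELBU.s_BU
  emb := Pool.Agent.H415.ELEMB.s_EMB
  elt := Pool.Agent.H155.ELELT.s_ELT
  core := Pool.Agent.H935.ELCORE.s_CORE
  bld := Pool.Agent.H100.ELBLD.s_BLD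
  low := Pool.Agent.H106.ELLOW.s_LOW
  dim := Pool.Agent.H196.ELDIM.s_DIM
  rci := Pool.Agent.H52.ELRCI.s_RCI
  niso := Pool.Agent.H921.ELNISO.s_NISO
  pts := Pool.Agent.H94.ELPTS.s_PTS
  num := Pool.Agent.H407.ELNUM.s_NUM

end Pool.Agent.H252.EL
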