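import Mathlib
import Pool.Graph.R_seed8.TH249.K0
import Pool.Graph.R_seed8.H188R3.IndLim

/-!
# Simple AH algebras, the Elliott invariant, the radius of comparison: definitions

`K0 A` (with `K0.cls`, `K0.pos`) is the `K_0`-group defined in `Pool.Graph.R_seed8.TH249.K0`
(projections in matrix algebras, Murray-von Neumann equivalence, Grothendieck group), `IsLim` is
defined in `Pool.Graph.R_seed8.H188R3.IndLim`.
-/

set_option autoImplicit false

noncomputable section

namespace Pool.Agent.H252.EL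

open Filter Topology
open scoped ENNReal NNReal Matrix.Norms.L2Operator
open Pool.Agent.TH249 (Prj K0 Eqv IsPrj)
open Pool.Agent.H188R3 (IsLim)

/-- `A` is (isomorphic to) the inductive limit of a sequence of algebras `C(Z n, M_{k n})`, where
the `Z n` are compact metrizable spaces, with injective unital connecting maps. In particular `A` is
an AH algebra. -/
def IsAHLimit (A : Type) [CStarAlgebra A] : Prop :=
  ∃ (Z : ℕ → Type) (_ : ∀ n, TopologicalSpace (Z n)) (_ : ∀ n, CompactSpace (Z n))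
    (_ : ∀ n, TopologicalSpace.MetrizableSpace (Z n)) (k : ℕ → ℕ)
    (φ : ∀ n, C(Z n, Matrix (Fin (k n)) (Fin (k n)) ℂ) →⋆ₐ[ℂ]
      C(Z (n + 1), Matrix (Fin (k (n + 1))) (Fin (k (n + 1))) ℂ))
    (j : ∀ n, C(Z n, Matrix (Fin (k n)) (Fin (k n)) ℂ) →⋆ₐ[ℂ] A), IsLim φ j

/-- The space of tracial states `T(A)`, in the weak* topology. -/
def TracialStates (A : Type) [CStarAlgebra A] : Set (WeakDual ℂ A) :=
  {τ | τ 1 = 1 ∧ (∀ x : A, 0 ≤ (τ (star x * x)).re ∧ (τ (star x * x)).im = 0) ∧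
    ∀ x y : A, τ (x * y) = τ (y * x)}

/-- the canonical extension of `τ` to the matrices over `A` -/
def trM {A : Type} [CStarAlgebra A] (τ : WeakDual ℂ A) {n : ℕ} (a : Matrix (Fin n) (Fin n) A) : ℂ :=
  ∑ i, τ (a i i)

/-- `K_1(A) = 0`: every unitary matrix over `A` is connected to `1` by a continuous path of unitary
matrices (of the same size). -/
def K1Zero (A : Type) [CStarAlgebra A] : Prop :=
  ∀ (n : ℕ) (u : Matrix (Fin n) (Fin n) A), star u * u = 1 → u * star u = 1 →
    ∃ γ : ℝ → Matrix (Fin n) (Fin n) A, Continuous γ ∧ γ 0 = u ∧ γ 1 = 1 ∧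
      ∀ t, star (γ t) * γ t = 1 ∧ γ t * star (γ t) = 1

/-- `A` and `B`, both with trivial `K_1`, have the same Elliott invariant: there are an isomorphism
`κ` of the ordered groups `K_0` which preserves the class of the unit and an affine homeomorphism
`h : T(B) → T(A)` which are compatible with the pairings: if `κ([P] - [Q]) = [P'] - [Q']` then
`τ(P') - τ(Q') = h(τ)(P) - h(τ)(Q)` for all `τ ∈ T(B)`. -/
def SameElliott (A B : Type) [CStarAlgebra A] [CStarAlgebra B] : Prop :=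
  K1Zero A ∧ K1Zero B ∧
  ∃ (κ : K0 A ≃+ K0 B) (h : TracialStates B ≃ₜ TracialStates A),
    κ '' K0.pos A = K0.pos B ∧
    κ (K0.cls (Prj.of (1 : A) (IsStarProjection.one (R := A)))) =
      K0.cls (Prj.of (1 : B) (IsStarProjection.one (R := B))) ∧
    (∀ (σ τ ρ : TracialStates B) (t : ℝ), 0 ≤ t → t ≤ 1 →
      (ρ : WeakDual ℂ B) = (t : ℂ) • (σ : WeakDual ℂ B) + ((1 - t : ℝ) : ℂ) • (τ : WeakDual ℂ B) →
      (h ρ : WeakDual ℂ A) =
        (t : ℂ) • (h σ : WeakDual ℂ A) + ((1 - t : ℝ) : ℂ) • (h τ : WeakDual ℂ A)) ∧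
    ∀ (P Q : Prj A) (P' Q' : Prj B), κ (K0.cls P - K0.cls Q) = K0.cls P' - K0.cls Q' →
      ∀ τ : TracialStates B, trM (h τ : WeakDual ℂ A) P.mat - trM (h τ : WeakDual ℂ A) Q.mat =
        trM (τ : WeakDual ℂ B) P'.mat - trM (τ : WeakDual ℂ B) Q'.mat

/-- Positive matrices over the C*-algebra `A`. -/
def IsPos {A : Type} [CStarAlgebra A] {n : ℕ} (a : Matrix (Fin n) (Fin n) A) : Prop :=
  ∃ x, a = star x * x

/-- The limit `d_τ(a) = lim τ(a^{1/m})` exists and equals `d`; here `a^{1/m}` is the positive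
`m`-th root of the positive matrix `a`. -/
def HasDim {A : Type} [CStarAlgebra A] (τ : WeakDual ℂ A) {n : ℕ} (a : Matrix (Fin n) (Fin n) A)
    (d : ℝ) : Prop :=
  ∃ r : ℕ → Matrix (Fin n) (Fin n) A, (∀ m, IsPos (r m) ∧ r m ^ (m + 1) = a) ∧
    Tendsto (fun m => (trM τ (r m)).re) atTop (𝓝 d)

/-- Cuntz subequivalence `a ≾ b` of positive matrices over `A`: `a` is the limit of elements
`v b v*` (convergence of matrices over a C*-algebra is convergence of all entries). -/
def CuntzLE {A : Type} [CStarAlgebra A] {n : ℕ} (a b : Matrix (Fin n) (Fin n) A) : Prop :=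
  ∀ ε : ℝ, 0 < ε → ∃ v : Matrix (Fin n) (Fin n) A, ∀ i j, ‖(v * b * star v - a) i j‖ < ε

/-- The radius of comparison of `A`, computed with the tracial states: the infimum (in `[0, ∞]`) of
all `r ≥ 0` such that `a ≾ b` for all positive matrices `a`, `b` over `A` with
`d_τ(a) + r < d_τ(b)` for all tracial states `τ`. -/
def rc (A : Type) [CStarAlgebra A] : ℝ≥0∞ :=
  sInf {s : ℝ≥0∞ | ∃ r : ℝ≥0, s = r ∧ ∀ (n : ℕ) (a b : Matrix (Fin n) (Fin n) A),
    IsPos a → IsPos b → (∀ τ ∈ TracialStates A, ∃ d e : ℝ, HasDim τ a d ∧ HasDim τ b e ∧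
      d + (r : ℝ) < e) → CuntzLE a b}

end Pool.Agent.H252.EL
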