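import Pool.Agent.H252.EL.Defs

/-!
# Two algebras with trivial `K₁` have the same Elliott invariant: definition
-/

set_option autoImplicit false

noncomputable section

namespace Pool.Agent.H252.EL

open Pool.Agent.TH249 (Prj K0 Eqv IsPrj)

variable {A B : Type} [CStarAlgebra A] [CStarAlgebra B]

/-- the class of the unit in `K_0(A)` -/
def unitCls (A : Type) [CStarAlgebra A] : K0 A :=
  K0.cls (Prj.of (1 : A) (IsStarProjection.one (R := A)))

/-- `h : T(B) → T(A)` is affine: it preserves convex combinations. -/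
def IsAff (h : TracialStates B → TracialStates A) : Prop :=
  ∀ (σ τ ρ : TracialStates B) (t : ℝ), 0 ≤ t → t ≤ 1 →
    ρ.1 = (t : ℂ) • σ.1 + ((1 - t : ℝ) : ℂ) • τ.1 →
      (h ρ).1 = (t : ℂ) • (h σ).1 + ((1 - t : ℝ) : ℂ) • (h τ).1

/-- `τ(P) - τ(Q)` -/
def dif (τ : WeakDual ℂ A) (P Q : Prj A) : ℂ := trM τ P.mat - trM τ Q.mat

/-- `κ : K_0(A) → K_0(B)` and `h : T(B) → T(A)` are compatible with the pairings: if
`κ([P] - [Q]) = [P'] - [Q']`, then `h(τ)(P) - h(τ)(Q) = τ(P') - τ(Q')` for all `τ ∈ T(B)`. -/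
def Compat (κ : K0 A → K0 B) (h : TracialStates B → TracialStates A) : Prop :=
  ∀ (P Q : Prj A) (P' Q' : Prj B), κ (K0.cls P - K0.cls Q) = K0.cls P' - K0.cls Q' →
    ∀ τ : TracialStates B, dif (h τ).1 P Q = dif τ.1 P' Q'

/-- `A` and `B` have the same Elliott invariant and trivial `K_1`: there are an isomorphism
`κ` of the ordered groups `K_0` which preserves the class of the unit and an affine homeomorphism
`h : T(B) → T(A)` which are compatible with the pairings. -/
def SameEll (A B : Type) [CStarAlgebra A] [CStarAlgebra B] : Prop :=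
  K1Zero A ∧ K1Zero B ∧
  ∃ (κ : K0 A ≃+ K0 B) (h : TracialStates B ≃ₜ TracialStates A),
    κ '' K0.pos A = K0.pos B ∧ κ (unitCls A) = unitCls B ∧ IsAff h ∧ Compat κ h

theorem sameEll_of (A B : Type) [CStarAlgebra A] [CStarAlgebra B] (H : SameElliott A B) :
    SameEll A B := H

end Pool.Agent.H252.EL
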