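import Pool.Agent.H252.EL.Iface

/-!
# Assembly from the statements
-/

set_option autoImplicit false

noncomputable section

namespace Pool.Agent.H252.EL

open Filter Topology
open scoped ENNReal NNReal Matrix.Norms.L2Operator ComplexOrder
open Pool.Agent.TH249 (Prj K0 Eqv IsPrj)
open Pool.Agent.H188R3 (IsLim exists_lim)

/-- the statements of the interface -/
structure AllS : Prop where
  ex : S_EX
  patch : S_PATCH
  simple : S_SIMPLE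
  k1 : S_K1
  trb : S_TRB
  mass : S_MASS
  ext : S_EXT
  upt : S_UPT
  tiso : S_TISO
  prj : S_PRJ
  rnk : S_RNK
  k0 : S_K0
  cmp : S_CMP
  nrm : S_NRM
  rd : S_RD
  spec : S_SPEC
  up : S_UP
  bu : S_BU
  emb : S_EMB
  elt : S_ELT
  core : S_CORE
  bld : S_BLD
  low : S_LOW
  dim : S_DIM
  rci : S_RCI
  niso : S_NISO
  pts : S_PTS
  num : S_NUM

/-- the isomorphism of the Elliott invariants -/
theorem sameElliott (H : AllS) (q : ∀ i b, Cb (dm mm ee i b)) (ω ω' : ℕ → Bool)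
    (L : Type) [CStarAlgebra L] (j : ∀ i, (DD q ω).A i →⋆ₐ[ℂ] L) (hL : IsLim (DD q ω).φ j)
    (L' : Type) [CStarAlgebra L'] (j' : ∀ i, (DD q ω').A i →⋆ₐ[ℂ] L')
    (hL' : IsLim (DD q ω').φ j') : SameElliott L L' := by
  obtain ⟨hF, -, -, hsum, -, -⟩ := H.num q
  refine ⟨H.k1 _ (hF ω).toGood L j hL, H.k1 _ (hF ω').toGood L' j' hL', ?_⟩
  obtain ⟨Θ, hpos, hone, hpair⟩ := H.k0 H.ex H.mass H.ext H.prj H.rnk _ (hF ω) L j hL
  obtain ⟨Θ', hpos', hone', hpair'⟩ := H.k0 H.ex H.mass H.ext H.prj H.rnk _ (hF ω') L' j' hL'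
  obtain ⟨h, haff, hmass⟩ := H.tiso H.mass mm ee q (SS ω) (cc ω) (SS ω') (cc ω') (hF ω) (hF ω')
    (hsum ω) (hsum ω') L j hL L' j' hL'
  have hΘ : ∀ x, Θ' ((Θ.trans Θ'.symm) x) = Θ x := fun x => by
    simp
  refine ⟨Θ.trans Θ'.symm, h, ?_, ?_, haff, ?_⟩
  · ext y
    constructor
    · rintro ⟨x, hx, rfl⟩
      rw [hpos', hΘ]
      exact (hpos x).1 hx
    · intro hy
      refine ⟨(Θ.trans Θ'.symm).symm y, ?_, AddEquiv.apply_symm_apply _ _⟩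
      rw [hpos]
      have : Θ ((Θ.trans Θ'.symm).symm y) = Θ' y := by simp
      rw [this]
      exact (hpos' y).1 hy
  · apply Θ'.injective
    rw [hΘ, hone, hone']
  · intro P Q P' Q' hPQ τ
    have h1 : Θ (K0.cls P) - Θ (K0.cls Q) = Θ' (K0.cls P') - Θ' (K0.cls Q') := by
      rw [← map_sub, ← map_sub, ← hPQ, hΘ]
    have e1 := congrArg (fun p : ℚ × ℚ => ((p.1 : ℚ) : ℝ)) h1
    have e2 := congrArg (fun p : ℚ × ℚ => ((p.2 : ℚ) : ℝ)) h1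
    simp only [Prod.fst_sub, Prod.snd_sub, Rat.cast_sub] at e1 e2
    rw [hpair _ (h τ).2 P, hpair _ (h τ).2 Q, hpair' _ τ.2 P', hpair' _ τ.2 Q']
    have h2 : ((h τ : WeakDual ℂ L) (j 0 ((DD q ω).one 0 true))).re =
        ((τ : WeakDual ℂ L') (j' 0 ((DD q ω').one 0 true))).re := congrArg Complex.re (hmass τ)
    rw [h2, ← Complex.ofReal_sub, ← Complex.ofReal_sub]
    congr 1
    linear_combination
      (2 * ((τ : WeakDual ℂ L') (j' 0 ((DD q ω').one 0 true))).re - 1 / 2) * e1 +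
      (3 / 2 - 2 * ((τ : WeakDual ℂ L') (j' 0 ((DD q ω').one 0 true))).re) * e2

/-- non-isomorphism -/
theorem not_iso (H : AllS) (q : ∀ i b, Cb (dm mm ee i b)) (ω ω' : ℕ → Bool) (hne : ω ≠ ω')
    (L : Type) [CStarAlgebra L] (j : ∀ i, (DD q ω).A i →⋆ₐ[ℂ] L) (hL : IsLim (DD q ω).φ j)
    (L' : Type) [CStarAlgebra L'] (j' : ∀ i, (DD q ω').A i →⋆ₐ[ℂ] L')
    (hL' : IsLim (DD q ω').φ j') : IsEmpty (L ≃⋆ₐ[ℂ] L') := by
  obtain ⟨hF, hdim, -, -, htail, hsep⟩ := H.num q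
  obtain ⟨s', s, s'', h0, h1, h2, h3 | h3⟩ := hsep ω ω' hne
  · have hup := H.up H.ex H.mass H.ext H.upt H.prj H.rnk H.cmp H.nrm H.rd H.spec _ (hF ω) L j hL
      s s' h1 h3.1
    have hlow := H.low H.mass H.patch H.bu H.emb H.elt H.core H.bld H.prj _ (hF ω') L' j' hL'
      s s'' h2 h0 (hdim ω') h3.2 (htail ω')
    exact H.niso H.ex H.mass H.ext H.prj H.rnk H.k0 _ _ (hF ω) (hF ω') L j hL L' j' hL' s hlow hup
  · have hup := H.up H.ex H.mass H.ext H.upt H.prj H.rnk H.cmp H.nrm H.rd H.spec _ (hF ω') L' j' hL'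
      s s' h1 h3.1
    have hlow := H.low H.mass H.patch H.bu H.emb H.elt H.core H.bld H.prj _ (hF ω) L j hL
      s s'' h2 h0 (hdim ω) h3.2 (htail ω)
    have := H.niso H.ex H.mass H.ext H.prj H.rnk H.k0 _ _ (hF ω') (hF ω) L' j' hL' L j hL s hlow hup
    exact ⟨fun Φ => this.false Φ.symm⟩

theorem main (H : AllS) : ∃ (A : (ℕ → Bool) → Type) (_ : ∀ ω, CStarAlgebra (A ω)),
    (∀ ω, IsSimpleRing (A ω) ∧ TopologicalSpace.SeparableSpace (A ω) ∧ IsAHLimit (A ω) ∧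
      rc (A ω) = ⊤) ∧
    (∀ ω ω', SameElliott (A ω) (A ω')) ∧
    ∀ ω ω', ω ≠ ω' → IsEmpty (A ω ≃⋆ₐ[ℂ] A ω') := by
  have hm : ∀ i, 1 ≤ mm i := (H.num fun _ _ _ => 0).1 (fun _ => true) |>.toGood.m_pos
  obtain ⟨q, hq⟩ := H.pts mm ee hm
  obtain ⟨hF, hdim, hR, hsum, htail, hsep⟩ := H.num q
  have hlim : ∀ ω, ∃ (L : Type) (_ : CStarAlgebra L) (j : ∀ n, (DD q ω).A n →⋆ₐ[ℂ] L),
      IsLim (DD q ω).φ j := by
    intro ω
    obtain ⟨h1, h2, -⟩ := H.ex _ (hF ω).toGood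
    exact exists_lim (DD q ω).φ h2
  choose A hA j hj using hlim
  refine ⟨A, hA, fun ω => ⟨?_, ?_, ?_, ?_⟩, fun ω ω' => ?_, fun ω ω' hne => ?_⟩
  · exact H.simple _ (hF ω).toGood (hq _ _) (A ω) (j ω) (hj ω)
  · exact ((H.ex _ (hF ω).toGood).2.2 (A ω) (j ω) (hj ω)).1
  · exact ((H.ex _ (hF ω).toGood).2.2 (A ω) (j ω) (hj ω)).2
  · exact H.rci H.mass H.patch H.bu H.emb H.elt H.core H.bld H.prj H.dim _ (hF ω) (A ω) (j ω)
      (hj ω) (hR ω) (htail ω)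
  · exact sameElliott H q ω ω' (A ω) (j ω) (hj ω) (A ω') (j ω') (hj ω')
  · exact not_iso H q ω ω' hne (A ω) (j ω) (hj ω) (A ω') (j ω') (hj ω')

end Pool.Agent.H252.EL
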