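import Pool.Agent.H252.EL.Defs

/-!
# The building blocks and the connecting maps
-/

set_option autoImplicit false
set_option linter.unusedSectionVars false

noncomputable section

namespace Pool.Agent.H252.EL

open Filter Topology
open scoped ENNReal NNReal Matrix.Norms.L2Operator
open Pool.Agent.TH249 (Prj K0 Eqv IsPrj)
open Pool.Agent.H188R3 (IsLim)

/-- the cube of dimension `d` -/
abbrev Cb (d : ℕ) : Type := Fin d → unitInterval

/-- the disjoint union of two cubes -/
abbrev ZZ (d : Bool → ℕ) : Type := Σ b : Bool, Cb (d b)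

/-- continuous functions with values in the `n × n` matrices -/
abbrev BB (Z : Type) [TopologicalSpace Z] [CompactSpace Z] (n : ℕ) : Type :=
  C(Z, Matrix (Fin n) (Fin n) ℂ)

/-- the diagonal map `f ↦ diag(f ∘ l 0, ..., f ∘ l (s-1))` on matrix valued functions: the values -/
def dgv {Z : Type} {n s : ℕ} (l : Fin s → Z) (f : Z → Matrix (Fin n) (Fin n) ℂ) :
    Matrix (Fin (n * s)) (Fin (n * s)) ℂ :=
  (Matrix.blockDiagonal fun t => f (l t)).submatrix finProdFinEquiv.symm finProdFinEquiv.symm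

section dg

variable {Z Z' : Type} [TopologicalSpace Z] [CompactSpace Z] [TopologicalSpace Z'] [CompactSpace Z']
  {n s : ℕ}

lemma dgv_apply (l : Fin s → Z) (f : Z → Matrix (Fin n) (Fin n) ℂ) (a b : Fin n) (t u : Fin s) :
    dgv l f (finProdFinEquiv (a, t)) (finProdFinEquiv (b, u)) = if t = u then f (l t) a b else 0 := by
  simp [dgv, Matrix.blockDiagonal_apply]

lemma continuous_dgv (l : Fin s → C(Z', Z)) (f : BB Z n) :
    Continuous fun z => dgv (fun t => l t z) f := by
  unfold dgv
  refine Continuous.matrix_submatrix ?_ _ _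
  refine Continuous.matrix_blockDiagonal ?_
  exact continuous_pi fun t => f.continuous.comp (l t).continuous

/-- the diagonal map `f ↦ diag(f ∘ l 0, ..., f ∘ l (s-1))` -/
def dg (l : Fin s → C(Z', Z)) : BB Z n →⋆ₐ[ℂ] BB Z' (n * s) where
  toFun f := ⟨fun z => dgv (fun t => l t z) f, continuous_dgv l f⟩
  map_one' := by
    ext1 z
    show dgv (fun t => l t z) (fun _ => (1 : Matrix (Fin n) (Fin n) ℂ)) = 1
    unfold dgv
    have h : (Matrix.blockDiagonal fun _ : Fin s => (1 : Matrix (Fin n) (Fin n) ℂ)) = 1 :=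
      Matrix.blockDiagonal_one
    rw [h, Matrix.submatrix_one_equiv]
  map_mul' f g := by
    ext1 z
    show dgv (fun t => l t z) (fun y => f y * g y) = _ * _
    unfold dgv
    have h := Matrix.blockDiagonal_mul (fun t => f (l t z)) (fun t => g (l t z))
    rw [h, ← Matrix.submatrix_mul_equiv _ _ _ finProdFinEquiv.symm _]
    rfl
  map_zero' := by
    ext1 z
    show dgv (fun t => l t z) (fun _ => (0 : Matrix (Fin n) (Fin n) ℂ)) = 0
    unfold dgv
    have h : (Matrix.blockDiagonal fun _ : Fin s => (0 : Matrix (Fin n) (Fin n) ℂ)) = 0 :=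
      Matrix.blockDiagonal_zero
    rw [h, Matrix.submatrix_zero]
    rfl
  map_add' f g := by
    ext1 z
    show dgv (fun t => l t z) (fun y => f y + g y) = _ + _
    unfold dgv
    have h := Matrix.blockDiagonal_add (fun t => f (l t z)) (fun t => g (l t z))
    have h2 : (fun t => f (l t z) + g (l t z)) = (fun t => f (l t z)) + fun t => g (l t z) := rfl
    rw [h2, h]
    rfl
  commutes' c := by
    ext1 z
    show dgv (fun t => l t z) (fun _ => algebraMap ℂ (Matrix (Fin n) (Fin n) ℂ) c) =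
      algebraMap ℂ (Matrix (Fin (n * s)) (Fin (n * s)) ℂ) c
    unfold dgv
    rw [Algebra.algebraMap_eq_smul_one, Algebra.algebraMap_eq_smul_one]
    have h : (Matrix.blockDiagonal fun _ : Fin s => c • (1 : Matrix (Fin n) (Fin n) ℂ)) =
        c • (1 : Matrix (Fin n × Fin s) (Fin n × Fin s) ℂ) := by
      have h1 := Matrix.blockDiagonal_smul c (fun _ : Fin s => (1 : Matrix (Fin n) (Fin n) ℂ))
      have h2 : (Matrix.blockDiagonal fun _ : Fin s => (1 : Matrix (Fin n) (Fin n) ℂ)) = 1 :=
        Matrix.blockDiagonal_one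
      rw [← h2]
      exact h1
    rw [h]
    show c • (1 : Matrix (Fin n × Fin s) (Fin n × Fin s) ℂ).submatrix _ _ = _
    rw [Matrix.submatrix_one_equiv]
  map_star' f := by
    ext1 z
    show dgv (fun t => l t z) (fun y => star (f y)) = star (dgv (fun t => l t z) f)
    unfold dgv
    have h := Matrix.blockDiagonal_conjTranspose (fun t => f (l t z))
    rw [Matrix.star_eq_conjTranspose, Matrix.conjTranspose_submatrix, h]
    rfl

lemma dg_apply (l : Fin s → C(Z', Z)) (f : BB Z n) (z : Z') :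
    dg l f z = dgv (fun t => l t z) f := rfl

end dg

/-! ## The spaces -/

/-- the dimensions of the cubes -/
def dm (m : ℕ → ℕ) (e : ℕ → Bool → ℕ) : ℕ → Bool → ℕ
  | 0, _ => 1
  | i + 1, b => m i * dm m e i b + e i b

/-- the sizes of the matrices -/
def sz (S : ℕ → ℕ) : ℕ → ℕ
  | 0 => 1
  | i + 1 => sz S i * S i

/-- the coordinate projection number `s` -/
def pj {m d e : ℕ} (s : Fin m) : C(Cb (m * d + e), Cb d) :=
  ⟨fun x a => x (Fin.castAdd e (finProdFinEquiv (s, a))), by fun_prop⟩

lemma pj_apply {m d e : ℕ} (s : Fin m) (x : Cb (m * d + e)) (a : Fin d) :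
    pj s x a = x (Fin.castAdd e (finProdFinEquiv (s, a))) := rfl

/-- The patches: `m` coordinate projections, `S - c - m` evaluations at the point `q` of the same
component, `c` evaluations at the point `q` of the other component. -/
def lam {d : Bool → ℕ} {m : ℕ} {e : Bool → ℕ} (q : ∀ b, Cb (d b)) (S c : ℕ) (s : Fin S) :
    C(ZZ fun b => m * d b + e b, ZZ d) :=
  if h : (s : ℕ) < m then ⟨fun z => ⟨z.1, pj ⟨s, h⟩ z.2⟩, by
      refine continuous_sigma fun b => ?_
      exact continuous_sigmaMk.comp (pj ⟨s, h⟩).continuous⟩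
  else if (s : ℕ) < S - c then ⟨fun z => ⟨z.1, q z.1⟩, by
      refine continuous_sigma fun b => ?_
      change Continuous fun _ : Cb (m * d b + e b) => (⟨b, q b⟩ : ZZ d)
      exact continuous_const⟩
  else ⟨fun z => ⟨!z.1, q (!z.1)⟩, by
      refine continuous_sigma fun b => ?_
      change Continuous fun _ : Cb (m * d b + e b) => (⟨!b, q (!b)⟩ : ZZ d)
      exact continuous_const⟩

/-- The data of a system: `m i` coordinate projections, `e i b` additional dimensions, `S i` patches
altogether, `c i` of them into the other component, the points `q i`. -/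
structure Sys where
  m : ℕ → ℕ
  e : ℕ → Bool → ℕ
  q : ∀ i b, Cb (dm m e i b)
  S : ℕ → ℕ
  c : ℕ → ℕ

namespace Sys

variable (D : Sys)

/-- the dimension of the cube number `b` at stage `i` -/
abbrev d (i : ℕ) (b : Bool) : ℕ := dm D.m D.e i b

/-- the size of the matrices at stage `i` -/
abbrev n (i : ℕ) : ℕ := sz D.S i

/-- the space at stage `i` -/
abbrev Z (i : ℕ) : Type := ZZ (D.d i)

/-- the algebra at stage `i` -/
abbrev A (i : ℕ) : Type := BB (D.Z i) (D.n i)

/-- the patches -/
def l (i : ℕ) (s : Fin (D.S i)) : C(D.Z (i + 1), D.Z i) := lam (D.q i) (D.S i) (D.c i) s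

/-- the connecting maps -/
def φ (i : ℕ) : D.A i →⋆ₐ[ℂ] D.A (i + 1) := dg (D.l i)

lemma d_zero (b : Bool) : D.d 0 b = 1 := rfl
lemma d_succ (i : ℕ) (b : Bool) : D.d (i + 1) b = D.m i * D.d i b + D.e i b := rfl
lemma n_zero : D.n 0 = 1 := rfl
lemma n_succ (i : ℕ) : D.n (i + 1) = D.n i * D.S i := rfl

lemma φ_apply (i : ℕ) (f : D.A i) (z : D.Z (i + 1)) :
    D.φ i f z = dgv (fun s => D.l i s z) f := rfl

/-- the basic inequalities -/
structure Good : Prop where
  m_pos : ∀ i, 1 ≤ D.m i
  c_pos : ∀ i, 1 ≤ D.c i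
  lt : ∀ i, D.m i + D.c i + 1 ≤ D.S i

/-- the points are dense: for every stage `i`, every component `b` and every nonempty open subset `U`
of the cube there are a later stage `k` and a chain of coordinate projections from stage `k` to stage
`i` which maps the point `q k b` into `U`. -/
def Dns : Prop := ∀ (i : ℕ) (b : Bool) (U : Set (Cb (D.d i b))), IsOpen U → U.Nonempty →
  ∃ (k : ℕ) (p : ∀ l : ℕ, Cb (D.d l b)), i ≤ k ∧ p k = D.q k b ∧ p i ∈ U ∧
    ∀ l, i ≤ l → l < k → ∃ s : Fin (D.m l), p l = pj (e := D.e l b) s (p (l + 1))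

/-- `D` is good, and every sixteenth detail of the arithmetic is fixed: `S i = 2 (i+2)² c i`,
`i + 1` divides `c i`, and the first cube is at least as big as the second one. -/
structure Fine : Prop extends D.Good where
  S_eq : ∀ i, D.S i = 2 * (i + 2) ^ 2 * D.c i
  dvd : ∀ i, (i + 1) ∣ D.c i

/-- the indicator function of the component `b` in the algebra at stage `i` -/
def one (i : ℕ) (b : Bool) : D.A i :=
  ⟨fun z => if z.1 = b then 1 else 0, by
    refine continuous_sigma fun b' => ?_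
    change Continuous fun _ : Cb (D.d i b') =>
      (if b' = b then (1 : Matrix (Fin (D.n i)) (Fin (D.n i)) ℂ) else 0)
    exact continuous_const⟩

end Sys

/-- the normalised trace of a matrix -/
def ntr {J : Type} [Fintype J] (a : Matrix J J ℂ) : ℂ := (Fintype.card J : ℂ)⁻¹ * a.trace

/-- a scalar function as a matrix valued function -/
def sc {Z : Type} [TopologicalSpace Z] [CompactSpace Z] (n : ℕ) (f : C(Z, ℂ)) : BB Z n :=
  ⟨fun z => f z • (1 : Matrix (Fin n) (Fin n) ℂ), by fun_prop⟩

/-- the pointwise normalised trace -/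
def ctr {Z : Type} [TopologicalSpace Z] [CompactSpace Z] {n : ℕ} (f : BB Z n) : C(Z, ℂ) :=
  ⟨fun z => ntr (f z), by
    unfold ntr
    exact continuous_const.mul (Continuous.matrix_trace f.continuous)⟩

/-- the average over the patches -/
def Sys.θ (D : Sys) (i : ℕ) (f : C(D.Z i, ℂ)) : C(D.Z (i + 1), ℂ) :=
  ((D.S i : ℂ)⁻¹) • ∑ s, f.comp (D.l i s)

/-- the constant diagonal projection of rank `ρ b` over the component `b` in the `k × k` matrices
over the algebra at stage `i` (for `ρ b ≤ k * n i`) -/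
def Sys.cp (D : Sys) (i k : ℕ) (ρ : Bool → ℕ) : Matrix (Fin k) (Fin k) (D.A i) :=
  Matrix.diagonal fun u => ⟨fun z => Matrix.diagonal fun a =>
    if (u : ℕ) * D.n i + (a : ℕ) < ρ z.1 then 1 else 0, by
      refine continuous_sigma fun b' => ?_
      change Continuous fun _ : Cb (D.d i b') => (Matrix.diagonal fun a : Fin (D.n i) =>
        if (u : ℕ) * D.n i + (a : ℕ) < ρ b' then (1 : ℂ) else 0)
      exact continuous_const⟩

/-- the composed connecting maps -/
def Sys.tr (D : Sys) (i : ℕ) : ∀ r : ℕ, D.A i →⋆ₐ[ℂ] D.A (i + r)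
  | 0 => StarAlgHom.id ℂ (D.A i)
  | r + 1 => (D.φ (i + r)).comp (D.tr i r)

lemma Sys.tr_zero (D : Sys) (i : ℕ) (a : D.A i) : D.tr i 0 a = a := rfl
lemma Sys.tr_succ (D : Sys) (i r : ℕ) (a : D.A i) : D.tr i (r + 1) a = D.φ (i + r) (D.tr i r a) :=
  rfl

/-- Cuntz subequivalence in a C*-algebra -/
def CLE {B : Type} [CStarAlgebra B] (a b : B) : Prop :=
  ∀ ε : ℝ, 0 < ε → ∃ v : B, ‖v * b * star v - a‖ < ε

/-- The invariant. `e` is a marker. -/
def Wit (B : Type) [CStarAlgebra B] (e : B) (s : ℝ) : Prop :=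
  ∃ x z b : B, IsStarProjection x ∧ IsStarProjection z ∧ (∃ y, b = star y * y) ∧
    (∃ y, 1 - b = star y * y) ∧ CLE z b ∧
    (∀ τ ∈ TracialStates B, (τ e).re = 1 / 4 → (τ x).re < (τ z).re) ∧
    (∀ τ ∈ TracialStates B, (τ e).re = 3 / 4 → (τ x).re + s < (τ b).re) ∧ ¬ CLE x b

/-! ## The Bott bundle -/

/-- the two-sphere -/
abbrev S2 : Type := Metric.sphere (0 : EuclideanSpace ℝ (Fin 3)) 1

/-- the projection `(1 + x · σ) / 2` of rank one attached to the point `x` of the two-sphere -/
def bott (x : S2) : Matrix (Fin 2) (Fin 2) ℂ :=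
  (2 : ℂ)⁻¹ • !![1 + ((x : EuclideanSpace ℝ (Fin 3)) 2 : ℂ),
      ((x : EuclideanSpace ℝ (Fin 3)) 0 : ℂ) - Complex.I * ((x : EuclideanSpace ℝ (Fin 3)) 1 : ℂ);
    ((x : EuclideanSpace ℝ (Fin 3)) 0 : ℂ) + Complex.I * ((x : EuclideanSpace ℝ (Fin 3)) 1 : ℂ),
      1 - ((x : EuclideanSpace ℝ (Fin 3)) 2 : ℂ)]

/-- the projection of rank `k` which consists of the blocks `bott (x t)` in the places `u (t, _)`,
and is zero elsewhere -/
def bottE {k : ℕ} {J : Type} [DecidableEq J] (u : Fin k × Fin 2 → J) (x : Fin k → S2) :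
    Matrix J J ℂ :=
  Matrix.of fun a b => ∑ t : Fin k, ∑ i : Fin 2, ∑ j : Fin 2,
    if u (t, i) = a ∧ u (t, j) = b then bott (x t) i j else 0

/-- positive part of `a - η` -/
def cut {B : Type} [CStarAlgebra B] (η : ℝ) (a : B) : B := cfc (fun t : ℝ => max (t - η) 0) a

/-! ## The numbers -/

/-- number of patches into the other component -/
def cc (ω : ℕ → Bool) (i : ℕ) : ℕ := (4 ^ (i + 1) + (if ω i then 1 else 0)) * (i + 1)

/-- number of patches -/
def SS (ω : ℕ → Bool) (i : ℕ) : ℕ := 2 * (i + 2) ^ 2 * cc ω i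

/-- number of coordinate projections -/
def mm (i : ℕ) : ℕ := (2 * (i + 2) ^ 2 - 2) * (4 ^ (i + 1) * (i + 1))

/-- number of additional dimensions -/
def ee (i : ℕ) (b : Bool) : ℕ := if b then (i + 1) * sz (SS fun _ => true) (i + 1) else 0

/-- the systems of the family -/
def DD (q : ∀ i b, Cb (dm mm ee i b)) (ω : ℕ → Bool) : Sys := ⟨mm, ee, q, SS ω, cc ω⟩

end Pool.Agent.H252.EL
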